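import Pool.Agent.Helper87.Irr.Start
import Pool.Agent.Helper10.Irr.Broom
import Pool.Agent.Helper10.Irr.TTriple
import Pool.Agent.Helper13.Irr.EL
import Pool.Agent.Helper13.Irr.LabStart
import Pool.Agent.Helper14.Irr.TCupLeg
import Pool.Agent.Helper17.Irr.TStar
import Pool.Agent.Helper29.Irr.PT
import Pool.Agent.Helper29.Irr.TC
import Pool.Agent.Helper29.Irr.TCup
import Pool.Agent.Helper29.Irr.TLight
import Pool.Agent.Helper29.Irr.TPath
import Pool.Agent.Helper3.Irr.Splits
import Pool.Agent.Helper42.Irr.Final
import Pool.Agent.Helper43.Irr.EP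
import Pool.Agent.Helper43.Irr.Star0
import Pool.Agent.Helper43.Irr.StarL
import Pool.Agent.Helper61.Irr.SP
import Pool.Agent.Helper61.Irr.TBot
import Pool.Agent.Helper61.Irr.TRun
import Pool.Agent.Helper65.Irr.LabMain
import Pool.Agent.Helper65.Irr.Place
import Pool.Agent.Helper74.Irr.TThrough
import Pool.Agent.Helper74.Irr.UHubRun
import Pool.Agent.Helper77.Irr.TStarL
import Pool.Agent.Helper8.Irr.Comb
import Pool.Agent.Helper8.Irr.Star2
import Pool.Agent.Helper89.Irr.PStep
import Pool.Agent.Helper89.Irr.UCLegs
import Pool.Agent.Helper89.Irr.UTriple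
import Pool.Agent.Helper93.Irr.SLegs
import Pool.Agent.Helper93.Irr.SZeroRoot
import Pool.Agent.Helper87.Irr.PlaceS
import Pool.Agent.Helper47.Irr.RE
import Pool.Agent.Helper14.Irr.STight

/-!
MP_033e98_co, cluster route: the lower bound.  Every tree with `p >= 3` leaves and order at most
`2p + 1` has a good weighting (`Lower`).
-/

namespace Irr87

open Irr37
open Pool.Agent.Helper89.Irr (pStep uCLegs uTriple)
open Irr93 (sLegs sZero sBottom sZeroRoot)
open Irr43 (eP star0)

theorem star1' : Star1 := star1 place final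

theorem star2' : Star2 := star2 placeS final

theorem star0' : Star0 := star0 place rE star1'

theorem starL' : StarL := Irr43.starL place

theorem tStar' : TStar := Irr17.tStar star0' star1' star2' rE

theorem tStarL' : TStarL := tStarL starL'

theorem tCupLeg' : TCupLeg := H14.tCupLeg rE star1' starL' labMain

theorem hub' : HubClaim' :=
  hubClaim (Irr61.tRun rE) (Irr61.tBot eL) (tLight eL) (tThrough pStep rE) (tPath pStep)
    (Pool.Agent.Helper10.Irr.tTriple pT) labMain tStar' tStarL' split1 split2 split3 split3e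
    sLegs sZero

theorem mainRec' : MainRec :=
  mainRec labMain tStar' tStarL' (tC rE) (tCup rE) tCupLeg' sLegs sZero hub' eP

/-- the lower bound -/
theorem lower' : Lower :=
  lower mainRec' labStart tStar' (uHubRun rE) (uCRun rE) (uCLegs rE star1') (uThin eL)
    (uTriple Irr61.sP) (Pool.Agent.Helper10.Irr.broom rE) sLegs (sZeroRoot sZero) H14.sTight sBottom

end Irr87
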