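import Pool.Agent.Helper87.Irr.Defs

namespace Irr87

open Irr37

/-! ### append -/

@[simp] theorem app_nil (f : RF) : app f RF.nil = f := by
  induction f with
  | nil => rfl
  | cons l ch s _ ih => simp only [app, ih]

@[simp] theorem nil_app (f : RF) : app RF.nil f = f := rfl

theorem app_assoc (f g h : RF) : app (app f g) h = app f (app g h) := by
  induction f with
  | nil => rfl
  | cons l ch s _ ih => simp only [app, ih]

@[simp] theorem app_size (f g : RF) : (app f g).size = f.size + g.size := by
  induction f with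
  | nil => simp [app, RF.size]
  | cons l ch s _ ih => simp only [app, RF.size, ih]; omega

@[simp] theorem app_leaves (f g : RF) : (app f g).leaves = f.leaves + g.leaves := by
  induction f with
  | nil => simp [app, RF.leaves]
  | cons l ch s _ ih => simp only [app, RF.leaves, ih]; omega

@[simp] theorem app_width (f g : RF) : (app f g).width = f.width + g.width := by
  induction f with
  | nil => simp [app, RF.width]
  | cons l ch s _ ih => simp only [app, RF.width, ih]; omega

@[simp] theorem app_valid (f g : RF) : (app f g).Valid ↔ f.Valid ∧ g.Valid := by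
  induction f with
  | nil => simp [app, RF.Valid]
  | cons l ch s _ ih => simp only [app, RF.Valid, ih]; tauto

theorem app_top {f g : RF} {l : ℕ} {ch : RF} :
    RF.Top (app f g) l ch ↔ RF.Top f l ch ∨ RF.Top g l ch := by
  induction f with
  | nil =>
    refine ⟨Or.inr, ?_⟩
    rintro (h | h)
    · cases h
    · exact h
  | cons l' ch' s _ ih =>
    constructor
    · intro h
      cases h with
      | here => exact Or.inl (RF.Top.here _ _ _)
      | right _ _ h =>
        rcases ih.1 h with h | h
        · exact Or.inl (RF.Top.right _ _ h)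
        · exact Or.inr h
    · rintro (h | h)
      · cases h with
        | here => exact RF.Top.here _ _ _
        | right _ _ h => exact RF.Top.right _ _ (ih.2 (Or.inl h))
      · exact RF.Top.right _ _ (ih.2 (Or.inr h))

theorem noLeg_app {f g : RF} : NoLeg (app f g) ↔ NoLeg f ∧ NoLeg g := by
  constructor
  · intro h
    exact ⟨fun ch ht => h ch (app_top.2 (Or.inl ht)), fun ch ht => h ch (app_top.2 (Or.inr ht))⟩
  · rintro ⟨h1, h2⟩ ch ht
    rcases app_top.1 ht with ht | ht
    · exact h1 ch ht
    · exact h2 ch ht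

theorem noLeg_nil : NoLeg RF.nil := by
  intro ch h
  cases h

theorem noLeg_cons {l : ℕ} {ch s : RF} :
    NoLeg (RF.cons l ch s) ↔ (l = 0 → ¬ Legc ch) ∧ NoLeg s := by
  constructor
  · intro h
    refine ⟨?_, fun c ht => h c (RF.Top.right _ _ ht)⟩
    rintro rfl
    exact h ch (RF.Top.here _ _ _)
  · rintro ⟨h1, h2⟩ c ht
    cases ht with
    | here => exact h1 rfl
    | right _ _ ht => exact h2 c ht

/-! ### DPerm -/

theorem DPerm.refl (f : RF) : DPerm f f := by
  induction f with
  | nil => exact DPerm.nil
  | cons l ch s ih1 ih2 => exact DPerm.cons l ih1 ih2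

theorem DPerm.symm {f g : RF} (h : DPerm f g) : DPerm g f := by
  induction h with
  | nil => exact DPerm.nil
  | cons l _ _ ih ih' => exact DPerm.cons l ih ih'
  | swap l l' ch ch' s => exact DPerm.swap l' l ch' ch s
  | trans _ _ ih1 ih2 => exact DPerm.trans ih2 ih1

theorem DPerm.of_perm {f g : RF} (h : RF.Perm f g) : DPerm f g := by
  induction h with
  | refl f => exact DPerm.refl f
  | cons l ch _ ih => exact DPerm.cons l (DPerm.refl ch) ih
  | swap l l' ch ch' s => exact DPerm.swap l l' ch ch' s
  | trans _ _ ih1 ih2 => exact DPerm.trans ih1 ih2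

theorem DPerm.size_eq {f g : RF} (h : DPerm f g) : f.size = g.size := by
  induction h with
  | nil => rfl
  | cons l _ _ ih ih' => simp only [RF.size, ih, ih']
  | swap l l' ch ch' s => simp only [RF.size]; omega
  | trans _ _ ih1 ih2 => exact ih1.trans ih2

theorem DPerm.leaves_eq {f g : RF} (h : DPerm f g) : f.leaves = g.leaves := by
  induction h with
  | nil => rfl
  | cons l _ _ ih ih' => simp only [RF.leaves, ih, ih']
  | swap l l' ch ch' s => simp only [RF.leaves]; omega
  | trans _ _ ih1 ih2 => exact ih1.trans ih2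

theorem DPerm.width_eq {f g : RF} (h : DPerm f g) : f.width = g.width := by
  induction h with
  | nil => rfl
  | cons l _ _ ih ih' => simp only [RF.width, ih']
  | swap l l' ch ch' s => simp only [RF.width]
  | trans _ _ ih1 ih2 => exact ih1.trans ih2

theorem DPerm.nil_iff {f g : RF} (h : DPerm f g) : f = RF.nil ↔ g = RF.nil := by
  induction h with
  | nil => simp
  | cons l _ _ _ _ => simp
  | swap l l' ch ch' s => simp
  | trans _ _ ih1 ih2 => exact ih1.trans ih2

theorem DPerm.valid {f g : RF} (h : DPerm f g) : f.Valid → g.Valid := by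
  induction h with
  | nil => exact id
  | cons l h _ ih ih' => exact fun hv => ⟨fun hc => hv.1 (h.nil_iff.2 hc), ih hv.2.1, ih' hv.2.2⟩
  | swap l l' ch ch' s =>
    exact fun hv => ⟨hv.2.2.1, hv.2.2.2.1, hv.1, hv.2.1, hv.2.2.2.2⟩
  | trans _ _ ih1 ih2 => exact fun hv => ih2 (ih1 hv)

theorem DPerm.top {f g : RF} (h : DPerm f g) {l : ℕ} {ch : RF} (ht : RF.Top f l ch) :
    ∃ ch', RF.Top g l ch' ∧ DPerm ch ch' := by
  induction h generalizing ch l with
  | nil => cases ht
  | cons l' h h' ih ih' =>
    cases ht with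
    | here => exact ⟨_, RF.Top.here _ _ _, h⟩
    | right _ _ ht =>
      obtain ⟨c, h1, h2⟩ := ih' ht
      exact ⟨c, RF.Top.right _ _ h1, h2⟩
  | swap l1 l2 c1 c2 s =>
    cases ht with
    | here => exact ⟨_, RF.Top.right _ _ (RF.Top.here _ _ _), DPerm.refl _⟩
    | right _ _ ht =>
      cases ht with
      | here => exact ⟨_, RF.Top.here _ _ _, DPerm.refl _⟩
      | right _ _ ht => exact ⟨_, RF.Top.right _ _ (RF.Top.right _ _ ht), DPerm.refl _⟩
  | trans _ _ ih1 ih2 =>
    obtain ⟨c, h1, h2⟩ := ih1 ht
    obtain ⟨c', h3, h4⟩ := ih2 h1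
    exact ⟨c', h3, h2.trans h4⟩

theorem DPerm.legc {f g : RF} (h : DPerm f g) : Legc f → Legc g := by
  intro hl
  induction hl generalizing g with
  | bot b =>
    have hw := h.width_eq
    obtain ⟨c, h1, h2⟩ := h.top (RF.Top.here b RF.nil RF.nil)
    have hc : c = RF.nil := h2.nil_iff.1 rfl
    subst hc
    cases g with
    | nil => cases h1
    | cons l ch s =>
      cases s with
      | nil =>
        cases h1 with
        | here => exact Legc.bot b
        | right _ _ h => cases h
      | cons _ _ _ => simp only [RF.width] at hw; omega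
  | @zero t ht ih =>
    have hw := h.width_eq
    obtain ⟨c, h1, h2⟩ := h.top (RF.Top.here 0 t RF.nil)
    cases g with
    | nil => cases h1
    | cons l ch s =>
      cases s with
      | nil =>
        cases h1 with
        | here => exact Legc.zero (ih h2)
        | right _ _ h => cases h
      | cons _ _ _ => simp only [RF.width] at hw; omega

theorem DPerm.noLeg {f g : RF} (h : DPerm f g) (hf : NoLeg f) : NoLeg g := by
  intro ch ht hl
  obtain ⟨c, h1, h2⟩ := h.symm.top ht
  exact hf c h1 (h2.legc hl)

theorem DPerm.app {f f' g g' : RF} (h : DPerm f f') (h' : DPerm g g') :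
    DPerm (app f g) (app f' g') := by
  induction h with
  | nil => exact h'
  | cons l h _ _ ih' => exact DPerm.cons l h ih'
  | swap l l' ch ch' s =>
    exact (DPerm.swap l l' ch ch' _).trans (DPerm.cons _ (DPerm.refl _)
      (DPerm.cons _ (DPerm.refl _) (by
        clear * - h'
        induction s with
        | nil => exact h'
        | cons a b c _ ih => exact DPerm.cons _ (DPerm.refl _) ih)))
  | @trans f1 f2 f3 _ _ ih1 ih2 =>
    refine ih1.trans ?_
    -- `app f2 g' ~ app f3 g'`
    have key : ∀ {a b : RF}, DPerm a b → ∀ k : RF, DPerm (Irr87.app a k) (Irr87.app b k) := by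
      intro a b hab
      induction hab with
      | nil => exact fun k => DPerm.refl k
      | cons l h _ _ ih' => exact fun k => DPerm.cons l h (ih' k)
      | swap l l' ch ch' s => exact fun k => DPerm.swap l l' ch ch' _
      | trans _ _ ih1 ih2 => exact fun k => (ih1 k).trans (ih2 k)
    rename_i h23
    exact key h23 g'

/-! ### labelled forests: appending and splitting -/

/-- append labelled forests -/
def lapp : LF → LF → LF
  | LF.nil, g => g
  | LF.cons A ch s, g => LF.cons A ch (lapp s g)

@[simp] theorem lapp_shape (f g : LF) : (lapp f g).shape = app f.shape g.shape := by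
  induction f with
  | nil => rfl
  | cons A ch s _ ih => simp only [lapp, LF.shape, app, ih]

@[simp] theorem lapp_labels (f g : LF) : (lapp f g).labels = f.labels + g.labels := by
  induction f with
  | nil => simp [lapp, LF.labels]
  | cons A ch s _ ih => simp only [lapp, LF.labels, ih]; abel

theorem Sol_app {p : ℕ} {f g : LF} {x y : ℕ} {W W' : Multiset ℕ} (h : Sol p f x W)
    (h' : Sol p g y W') : Sol p (lapp f g) (x + y) (W + W') := by
  induction f generalizing x W with
  | nil => cases h; simpa [lapp] using h'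
  | cons A ch s _ ih =>
    cases h with
    | @cons _ _ _ x1 x2 y1 W1 W2 h1 h2 h3 h4 =>
      have := Sol.cons (A := A) h1 h2 h3 (ih h4)
      have e : y1 + x2 + y = y1 + (x2 + y) := by omega
      have e' : (A.sum + x1 + y1) ::ₘ (W1 + W2) + W' = (A.sum + x1 + y1) ::ₘ (W1 + (W2 + W')) := by
        rw [Multiset.cons_add, add_assoc W1 W2 W']
      rw [e, e']
      exact this

theorem Sol_card {p : ℕ} {f : LF} {x : ℕ} {W : Multiset ℕ} (h : Sol p f x W) :
    Multiset.card W = f.shape.size ∧ x ≤ p * f.shape.width := by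
  induction h with
  | nil => simp [LF.shape, RF.size, RF.width]
  | cons h1 h2 _ _ ih ih' =>
    simp only [LF.shape, RF.size, RF.width, Multiset.card_cons, Multiset.card_add]
    refine ⟨by omega, ?_⟩
    have := ih'.2
    rw [Nat.mul_add]
    omega

/-- splitting a labelled forest whose shape is an append -/
theorem split_shape {F : LF} {f g : RF} (h : F.shape = app f g) :
    ∃ F1 F2, F = lapp F1 F2 ∧ F1.shape = f ∧ F2.shape = g := by
  induction f generalizing F with
  | nil => exact ⟨LF.nil, F, rfl, rfl, h⟩
  | cons l ch s _ ih =>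
    cases F with
    | nil => simp [LF.shape, app] at h
    | cons A fc fs =>
      simp only [LF.shape, app, RF.cons.injEq] at h
      obtain ⟨h1, h2, h3⟩ := h
      obtain ⟨F1, F2, e, e1, e2⟩ := ih h3
      refine ⟨LF.cons A fc F1, F2, ?_, ?_, e2⟩
      · simp only [lapp, e]
      · simp only [LF.shape, h1, h2, e1]

theorem Sol_split {p : ℕ} {F1 F2 : LF} {x : ℕ} {W : Multiset ℕ} (h : Sol p (lapp F1 F2) x W) :
    ∃ x1 x2 W1 W2, x = x1 + x2 ∧ W = W1 + W2 ∧ Sol p F1 x1 W1 ∧ Sol p F2 x2 W2 := by
  induction F1 generalizing x W with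
  | nil => exact ⟨0, x, 0, W, by simp, by simp, Sol.nil, h⟩
  | cons A ch s _ ih =>
    simp only [lapp] at h
    cases h with
    | @cons _ _ _ xc xs y Wc Ws h1 h2 h3 h4 =>
      obtain ⟨x1, x2, W1, W2, e1, e2, h5, h6⟩ := ih h4
      refine ⟨y + x1, x2, _, W2, by omega, ?_, Sol.cons h1 h2 h3 h5, h6⟩
      rw [e2, Multiset.cons_add, add_assoc Wc W1 W2]

/-- splitting a planted solution -/
theorem Sol_split_planted {p : ℕ} {F : LF} {f g : RF} {W : Multiset ℕ} (hF : F.shape = app f g)
    (h : Sol p F (p * (app f g).width) W) :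
    ∃ F1 F2 W1 W2, F1.shape = f ∧ F2.shape = g ∧ F.labels = F1.labels + F2.labels ∧
      W = W1 + W2 ∧ Sol p F1 (p * f.width) W1 ∧ Sol p F2 (p * g.width) W2 := by
  obtain ⟨F1, F2, e, e1, e2⟩ := split_shape hF
  subst e
  obtain ⟨x1, x2, W1, W2, h1, h2, h3, h4⟩ := Sol_split h
  have h5 := (Sol_card h3).2
  have h6 := (Sol_card h4).2
  rw [e1] at h5
  rw [e2] at h6
  rw [app_width, Nat.mul_add] at h1
  have h7 : x1 = p * f.width := by omega
  have h8 : x2 = p * g.width := by omega
  subst h7
  subst h8
  exact ⟨F1, F2, W1, W2, e1, e2, lapp_labels _ _, h2, h3, h4⟩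

/-- DPerm invariance of solutions -/
theorem Sol_dperm {p : ℕ} {g g' : RF} (h : DPerm g g') :
    ∀ (f : LF) (x : ℕ) (W : Multiset ℕ), f.shape = g → Sol p f x W →
      ∃ f' : LF, f'.shape = g' ∧ f'.labels = f.labels ∧ Sol p f' x W := by
  induction h with
  | nil => exact fun f x W hf hs => ⟨f, hf, rfl, hs⟩
  | cons l _ _ ih ih' =>
    intro f x W hf hs
    cases f with
    | nil => simp [LF.shape] at hf
    | cons A fc fs =>
      simp only [LF.shape, RF.cons.injEq] at hf
      obtain ⟨hA, hfc, hfs⟩ := hf
      cases hs with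
      | @cons _ _ _ xc xs y Wc Ws h1 h2 hc hs =>
        obtain ⟨f', h3, h4, h5⟩ := ih' fs xs Ws hfs hs
        obtain ⟨f'', h6, h7, h8⟩ := ih fc xc Wc hfc hc
        refine ⟨LF.cons A f'' f', ?_, ?_, Sol.cons h1 h2 h8 h5⟩
        · simp only [LF.shape, hA, h6, h3]
        · simp only [LF.labels, h4, h7]
  | swap l l' ch ch' s =>
    intro f x W hf hs
    exact Sol.perm (RF.Perm.swap l l' ch ch' s) f x W hf hs
  | trans _ _ ih1 ih2 =>
    intro f x W hf hs
    obtain ⟨f', h1, h2, h3⟩ := ih1 f x W hf hs
    obtain ⟨f'', h4, h5, h6⟩ := ih2 f' x W h1 h3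
    exact ⟨f'', h4, h5.trans h2, h6⟩

/-! ### partial solutions -/

theorem PS.card {p : ℕ} {f : RF} {x : ℕ} {W L : Multiset ℕ} {r : RF} (h : PS p f x W L r) :
    Multiset.card W + r.size = f.size ∧ Multiset.card L + r.leaves = f.leaves := by
  induction h with
  | nil => simp [RF.size, RF.leaves]
  | vert h1 h2 _ _ ih ih' =>
    simp only [Multiset.card_cons, Multiset.card_add, app_size, app_leaves, RF.size, RF.leaves]
    omega
  | cut _ ih => simp only [RF.size, RF.leaves]; omega

/-- completing a partial solution -/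
theorem PS.complete {p : ℕ} (hp : 1 ≤ p) {f : RF} {x : ℕ} {W L : Multiset ℕ} {r : RF}
    (h : PS p f x W L r) : ∀ (F : LF) (W' : Multiset ℕ), F.shape = r → Sol p F (p * r.width) W' →
    ∃ G : LF, G.shape = f ∧ G.labels = L + F.labels ∧ Sol p G x (W + W') := by
  induction h with
  | nil =>
    intro F W' hF hs
    cases F with
    | nil => exact ⟨LF.nil, rfl, by simp, by simpa [RF.width] using hs⟩
    | cons _ _ _ => simp [LF.shape] at hF
  | @vert A ch sib x x' y W W' L L' r r' h1 h2 _ _ ih ih' =>
    intro F W'' hF hs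
    obtain ⟨F1, F2, W1, W2, e1, e2, e3, e4, h5, h6⟩ := Sol_split_planted hF hs
    obtain ⟨G1, g1, g2, g3⟩ := ih F1 W1 e1 h5
    obtain ⟨G2, k1, k2, k3⟩ := ih' F2 W2 e2 h6
    refine ⟨LF.cons A G1 G2, ?_, ?_, ?_⟩
    · simp only [LF.shape, g1, k1]
    · simp only [LF.labels, g2, k2, e3]; abel
    · have := Sol.cons (A := A) h1 h2 g3 k3
      rw [e4, Multiset.cons_add]
      have e : W + W' + (W1 + W2) = W + W1 + (W' + W2) := by abel
      rw [e]
      exact this
  | @cut l ch sib x' W' L' r' _ ih =>
    intro F W'' hF hs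
    cases F with
    | nil => simp [LF.shape] at hF
    | cons A fc fs =>
      simp only [LF.shape, RF.cons.injEq] at hF
      obtain ⟨hA, hfc, hfs⟩ := hF
      simp only [RF.width] at hs
      generalize hX : p * (1 + r'.width) = X at hs
      cases hs with
      | @cons _ _ _ xc xs y Wc Ws h1 h2 hc hs =>
        have h5 := (Sol_card hs).2
        rw [hfs] at h5
        have h6 : y = p ∧ xs = p * r'.width := by
          rw [Nat.mul_add] at hX
          omega
        obtain ⟨rfl, rfl⟩ := h6
        obtain ⟨G, k1, k2, k3⟩ := ih fs Ws hfs hs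
        refine ⟨LF.cons A fc G, ?_, ?_, ?_⟩
        · simp only [LF.shape, hA, hfc, k1]
        · simp only [LF.labels, k2]; abel
        · have := Sol.cons (A := A) h1 h2 hc k3
          have e : (A.sum + xc + y) ::ₘ (Wc + (W' + Ws)) = W' + (A.sum + xc + y) ::ₘ (Wc + Ws) := by
            rw [Multiset.add_cons]
            congr 1
            abel
          rw [← e]
          exact this

/-- everything is cut off -/
theorem PS.cutAll (p : ℕ) (f : RF) : PS p f (p * f.width) 0 0 f := by
  induction f with
  | nil => exact PS.nil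
  | cons l ch s _ ih =>
    have := PS.cut (p := p) (l := l) (ch := ch) ih
    simp only [RF.width]
    rw [Nat.mul_add, Nat.mul_one]
    exact this

theorem PS.app {p : ℕ} {f g : RF} {x y : ℕ} {W W' L L' : Multiset ℕ} {r r' : RF}
    (h : PS p f x W L r) (h' : PS p g y W' L' r') :
    PS p (Irr87.app f g) (x + y) (W + W') (L + L') (Irr87.app r r') := by
  induction h with
  | nil => simpa using h'
  | @vert A ch sib x x' z W1 W2 L1 L2 r1 r2 h1 h2 ha _ _ ih' =>
    have := PS.vert (A := A) h1 h2 ha ih'
    have e : z + x' + y = z + (x' + y) := by omega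
    have e1 : (A.sum + x + z) ::ₘ (W1 + W2) + W' = (A.sum + x + z) ::ₘ (W1 + (W2 + W')) := by
      rw [Multiset.cons_add, add_assoc W1 W2 W']
    have e2 : A + L1 + L2 + L' = A + L1 + (L2 + L') := by abel
    rw [e, e1, e2, app_assoc]
    exact this
  | @cut l ch sib x' W1 L1 r1 _ ih =>
    have := PS.cut (p := p) (l := l) (ch := ch) ih
    have e : p + x' + y = p + (x' + y) := by omega
    rw [e]
    exact this

/-- a vertex on top of a solved forest -/
theorem PS.single {p : ℕ} {A : Multiset ℕ} {ch : RF} {x y : ℕ} {W L : Multiset ℕ} {r : RF}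
    (h1 : 1 ≤ y) (h2 : y ≤ p) (h : PS p ch x W L r) :
    PS p (RF.cons (Multiset.card A) ch RF.nil) y ((A.sum + x + y) ::ₘ W) (A + L) r := by
  have := PS.vert (A := A) h1 h2 h PS.nil
  simpa using this

theorem wts_nil (p : ℕ) : wts p [] = 0 := rfl

theorem wts_cons (p D : ℕ) (l : List ℕ) : wts p (D :: l) = (2 * p - D) ::ₘ wts p l := rfl

theorem wts_append (p : ℕ) (l l' : List ℕ) : wts p (l ++ l') = wts p l + wts p l' := by
  simp [wts]

theorem mem_wts {p w : ℕ} {l : List ℕ} : w ∈ wts p l ↔ ∃ D ∈ l, 2 * p - D = w := by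
  simp [wts]

theorem card_wts (p : ℕ) (l : List ℕ) : Multiset.card (wts p l) = l.length := by
  simp [wts]

theorem Chain.le {p a b : ℕ} {l : List ℕ} (h : Chain p a l b) : ∀ D ∈ l, D < p := by
  induction l generalizing a with
  | nil => intro D hD; cases hD
  | cons D l ih =>
    obtain ⟨h1, h2, h3⟩ := h
    intro D' hD'
    rcases List.mem_cons.1 hD' with rfl | hD'
    · exact h2
    · exact ih h3 D' hD'

theorem Chain.end_lt {p a b : ℕ} {l : List ℕ} (ha : a < p) (h : Chain p a l b) : b < p := by
  induction l generalizing a with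
  | nil => exact h ▸ ha
  | cons D l ih =>
    obtain ⟨h1, h2, h3⟩ := h
    exact ih (by omega) h3

theorem Chain.append {p a b c : ℕ} {l l' : List ℕ} (h : Chain p a l b) (h' : Chain p b l' c) :
    Chain p a (l ++ l') c := by
  induction l generalizing a with
  | nil => have : a = b := h; subst this; exact h'
  | cons D l ih => exact ⟨h.1, h.2.1, ih h.2.2⟩

theorem Chain.reverse {p a b : ℕ} {l : List ℕ} (h : Chain p a l b) : Chain p b l.reverse a := by
  induction l generalizing a with
  | nil => exact h.symm
  | cons D l ih =>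
    rw [List.reverse_cons]
    obtain ⟨h1, h2, h3⟩ := h
    refine (ih h3).append ⟨by omega, h2, ?_⟩
    show D - (D - a) = a
    omega

/-- zeros on top of a solved tree: `Ds` is listed from the bottom to the top -/
theorem PS.zrun {p : ℕ} {a b : ℕ} {Ds : List ℕ} {t r : RF} {W L : Multiset ℕ} (ha : a < p)
    (hc : Chain p a Ds b) (h : PS p t (p - a) W L r) :
    PS p (Irr87.zrun Ds.length t) (p - b) (wts p Ds + W) L r := by
  have key : ∀ (n : ℕ) (t : RF), Irr87.zrun (n + 1) t = Irr87.zrun n (RF.cons 0 t RF.nil) := by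
    intro n
    induction n with
    | zero => intro t; rfl
    | succ n ih => intro t; exact congrArg (fun s => RF.cons 0 s RF.nil) (ih t)
  induction Ds generalizing a t W with
  | nil =>
    have : a = b := hc
    subst this
    simpa [wts, Irr87.zrun] using h
  | cons D l ih =>
    obtain ⟨h1, h2, h3⟩ := hc
    have h4 := PS.single (A := (0 : Multiset ℕ)) (y := p - (D - a)) (by omega) (by omega) h
    rw [Multiset.card_zero, zero_add] at h4
    have h5 := ih (a := D - a) (t := RF.cons 0 t RF.nil) (by omega) h3 h4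
    rw [List.length_cons, key]
    have e : wts p (D :: l) + W = wts p l + (((0 : Multiset ℕ).sum + (p - a) + (p - (D - a))) ::ₘ W) := by
      rw [wts_cons, Multiset.sum_zero, zero_add, Multiset.add_cons, Multiset.cons_add]
      congr 1
      omega
    rw [e]
    simpa using h5

end Irr87
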