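import Pool.Agent.Helper87.Irr.GoalsA

namespace Irr87

open Irr37

@[simp] theorem bot_size (b : ℕ) : (bot b).size = 1 := rfl
@[simp] theorem bot_leaves (b : ℕ) : (bot b).leaves = b := rfl
@[simp] theorem bot_width (b : ℕ) : (bot b).width = 1 := rfl
@[simp] theorem bot_valid (b : ℕ) : (bot b).Valid ↔ 1 ≤ b := by
  simp [bot, RF.Valid]

@[simp] theorem zrun_size (n : ℕ) (t : RF) : (zrun n t).size = n + t.size := by
  induction n with
  | zero => simp [zrun]
  | succ n ih => simp only [zrun, RF.size, ih]; omega

@[simp] theorem zrun_leaves (n : ℕ) (t : RF) : (zrun n t).leaves = t.leaves := by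
  induction n with
  | zero => simp [zrun]
  | succ n ih => simp only [zrun, RF.leaves, ih]; omega

theorem zrun_width (n : ℕ) (t : RF) (ht : t.width = 1) : (zrun n t).width = 1 := by
  cases n with
  | zero => exact ht
  | succ n => simp only [zrun, RF.width]

theorem width_ne_nil {t : RF} (h : 1 ≤ t.width) : t ≠ RF.nil := by
  rintro rfl
  simp [RF.width] at h

theorem zrun_valid (n : ℕ) (t : RF) (ht : 1 ≤ t.width) : (zrun n t).Valid ↔ t.Valid := by
  induction n with
  | zero => simp [zrun]
  | succ n ih =>
    simp only [zrun, RF.Valid, ih]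
    constructor
    · rintro ⟨_, h, _⟩
      exact h
    · intro h
      refine ⟨?_, h, trivial⟩
      intro h0
      exfalso
      cases n with
      | zero => exact width_ne_nil ht h0
      | succ n => simp [zrun] at h0

theorem legc_zrun_bot (n b : ℕ) : Legc (zrun n (bot b)) := by
  induction n with
  | zero => exact Legc.bot b
  | succ n ih => exact Legc.zero ih

theorem legc_iff {t : RF} : Legc t ↔ ∃ n b, t = zrun n (bot b) := by
  constructor
  · intro h
    induction h with
    | bot b => exact ⟨0, b, rfl⟩
    | zero _ ih =>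
      obtain ⟨n, b, rfl⟩ := ih
      exact ⟨n + 1, b, rfl⟩
  · rintro ⟨n, b, rfl⟩
    exact legc_zrun_bot n b

@[simp] theorem legsF_nil : legsF [] = RF.nil := rfl
theorem legsF_cons (e : ℕ × ℕ) (ls : List (ℕ × ℕ)) :
    legsF (e :: ls) = app (zrun e.1 (bot e.2)) (legsF ls) := rfl

@[simp] theorem legsF_size (ls : List (ℕ × ℕ)) :
    (legsF ls).size = (ls.map Prod.fst).sum + ls.length := by
  induction ls with
  | nil => rfl
  | cons e ls ih =>
    rw [legsF_cons, app_size, ih]
    simp only [zrun_size, bot_size, List.map_cons, List.sum_cons, List.length_cons]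
    omega

@[simp] theorem legsF_leaves (ls : List (ℕ × ℕ)) :
    (legsF ls).leaves = (ls.map Prod.snd).sum := by
  induction ls with
  | nil => rfl
  | cons e ls ih =>
    rw [legsF_cons, app_leaves, ih]
    simp only [zrun_leaves, bot_leaves, List.map_cons, List.sum_cons]

@[simp] theorem legsF_width (ls : List (ℕ × ℕ)) : (legsF ls).width = ls.length := by
  induction ls with
  | nil => rfl
  | cons e ls ih =>
    rw [legsF_cons, app_width, ih, zrun_width _ _ (bot_width _)]
    simp only [List.length_cons]
    omega

@[simp] theorem botsF_size (ls : List (ℕ × ℕ)) : (botsF ls).size = ls.length := by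
  induction ls with
  | nil => rfl
  | cons e ls ih =>
    simp only [botsF, RF.size, ih, List.length_cons]
    omega

@[simp] theorem botsF_leaves (ls : List (ℕ × ℕ)) :
    (botsF ls).leaves = (ls.map Prod.snd).sum := by
  induction ls with
  | nil => rfl
  | cons e ls ih =>
    simp only [botsF, RF.leaves, ih, List.map_cons, List.sum_cons]
    omega

@[simp] theorem botsF_width (ls : List (ℕ × ℕ)) : (botsF ls).width = ls.length := by
  induction ls with
  | nil => rfl
  | cons e ls ih =>
    simp only [botsF, RF.width, ih, List.length_cons]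
    omega

theorem botsF_valid {ls : List (ℕ × ℕ)} (h : ∀ e ∈ ls, 1 ≤ e.2) : (botsF ls).Valid := by
  induction ls with
  | nil => trivial
  | cons e ls ih =>
    exact ⟨fun _ => h e List.mem_cons_self, trivial, ih fun e he => h e (List.mem_cons_of_mem _ he)⟩

theorem botsF_noLeg {ls : List (ℕ × ℕ)} (h : ∀ e ∈ ls, 1 ≤ e.2) : NoLeg (botsF ls) := by
  induction ls with
  | nil => exact noLeg_nil
  | cons e ls ih =>
    refine noLeg_cons.2 ⟨?_, ih fun e he => h e (List.mem_cons_of_mem _ he)⟩
    intro h0
    have := h e List.mem_cons_self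
    omega

theorem legsF_valid {ls : List (ℕ × ℕ)} (h : ∀ e ∈ ls, 1 ≤ e.2) : (legsF ls).Valid := by
  induction ls with
  | nil => trivial
  | cons e ls ih =>
    rw [legsF_cons, app_valid, zrun_valid _ _ (le_of_eq (bot_width _).symm), bot_valid]
    exact ⟨h e List.mem_cons_self, ih fun e he => h e (List.mem_cons_of_mem _ he)⟩

theorem legsF_valid' {ls : List (ℕ × ℕ)} (h : (legsF ls).Valid) : ∀ e ∈ ls, 1 ≤ e.2 := by
  induction ls with
  | nil => intro e he; cases he
  | cons e ls ih =>
    rw [legsF_cons, app_valid, zrun_valid _ _ (le_of_eq (bot_width _).symm), bot_valid] at h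
    intro e' he'
    rcases List.mem_cons.1 he' with rfl | he'
    · exact h.1
    · exact ih h.2 e' he'

/-! ### runs and partial solutions -/

theorem ChS_self {p : ℕ} {Ds : List ℕ} {h : ℕ} (hc : ChS p p Ds h) : Chain p 0 Ds h := by
  obtain ⟨D, l, rfl, h1, h2, h3, h4⟩ := hc
  refine ⟨Nat.zero_le _, h3, ?_⟩
  have e : p + D - p = D - 0 := by omega
  rw [e] at h4
  exact h4

theorem ChS_of_chain {p : ℕ} {Ds : List ℕ} {h : ℕ} (hn : Ds ≠ []) (hc : Chain p 0 Ds h) :
    ChS p p Ds h := by
  cases Ds with
  | nil => exact absurd rfl hn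
  | cons D l =>
    obtain ⟨_, h2, h3⟩ := hc
    refine ⟨D, l, rfl, by omega, by omega, h2, ?_⟩
    have e : p + D - p = D - 0 := by omega
    rw [e]
    exact h3

/-- a planted tree -/
theorem PS.planted (p : ℕ) {y : RF} (hy : y.width = 1) : PS p y p 0 0 y := by
  have := PS.cutAll p y
  rw [hy, Nat.mul_one] at this
  exact this

/-- an open run below a vertex: zeros on top of a planted tree `y` -/
theorem PS.openRun {p : ℕ} {Ds : List ℕ} {h : ℕ} {y : RF} (hp : 1 ≤ p) (hy : y.width = 1)
    (hc : ChS p p Ds h) : PS p (Irr87.zrun Ds.length y) (p - h) (wts p Ds) 0 y := by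
  have h1 := PS.zrun (p := p) (a := 0) (by omega) (ChS_self hc) (by simpa using PS.planted p hy)
  simpa using h1

/-- an included leg -/
theorem PS.inclLeg {p : ℕ} {Ds : List ℕ} {h r : ℕ} {X : Multiset ℕ} (hr : Ds.length = r + 1)
    (hc : ChS p X.sum Ds h) :
    PS p (Irr87.zrun r (bot (Multiset.card X))) (p - h) (wts p Ds) X RF.nil := by
  obtain ⟨D, l, rfl, h1, h2, h3, h4⟩ := hc
  have hr' : l.length = r := by simpa using hr
  have h5 := PS.single (p := p) (A := X) (y := p - (X.sum + D - p)) (by omega) (by omega)
    (PS.nil (p := p))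
  have h6 := PS.zrun (p := p) (a := X.sum + D - p) (by omega) h4 h5
  rw [hr'] at h6
  have e : wts p (D :: l) = wts p l + ((X.sum + 0 + (p - (X.sum + D - p))) ::ₘ (0 : Multiset ℕ)) := by
    rw [wts_cons, Multiset.add_cons, add_zero, add_zero]
    congr 1
    omega
  rw [e]
  simpa [bot] using h6

/-- an excluded leg: the run and its (obese) bottom are solved separately, the top label is `p` -/
theorem PS.exclLeg {p : ℕ} {Ds : List ℕ} {h : ℕ} {X : Multiset ℕ} (hh : h < p)
    (hc : ChS p p Ds h) :
    PS p (Irr87.zrun Ds.length (bot (Multiset.card X))) p ((X.sum + (p - h)) ::ₘ wts p Ds) X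
      RF.nil := by
  have h5 := PS.single (p := p) (A := X) (y := p - h) (by omega) (by omega) (PS.nil (p := p))
  have h6 := PS.zrun (p := p) hh (ChS_self hc).reverse h5
  rw [List.length_reverse] at h6
  have e : (X.sum + (p - h)) ::ₘ wts p Ds = wts p Ds.reverse +
      ((X.sum + 0 + (p - h)) ::ₘ (0 : Multiset ℕ)) := by
    rw [Multiset.add_cons, add_zero, add_zero]
    congr 1
    simp [wts, List.map_reverse]
  rw [e]
  simpa [bot] using h6

/-- a run above a tree whose top label is `p - h`; above the run the label is `p` -/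
theorem PS.upRun {p : ℕ} {Ds : List ℕ} {h : ℕ} {t r : RF} {W L : Multiset ℕ} (hh : h < p)
    (hc : ChS p p Ds h) (ht : PS p t (p - h) W L r) :
    PS p (Irr87.zrun Ds.length t) p (wts p Ds + W) L r := by
  have h6 := PS.zrun (p := p) hh (ChS_self hc).reverse ht
  rw [List.length_reverse] at h6
  have e : wts p Ds = wts p Ds.reverse := by
    simp [wts, List.map_reverse]
  rw [e]
  simpa using h6

/-- open legs -/
theorem PS.legsF {p : ℕ} (hp : 1 ≤ p) {ls : List (ℕ × ℕ)} {Dss : List (List ℕ)} {hs : List ℕ}
    (hr : Runs p (opn p (ls.map Prod.fst)) Dss hs) :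
    ∃ x, PS p (Irr87.legsF ls) x (wts p Dss.flatten) 0 (botsF ls) ∧ x + hs.sum = p * ls.length := by
  induction ls generalizing Dss hs with
  | nil =>
    cases Dss with
    | nil =>
      cases hs with
      | nil => exact ⟨0, by simpa [wts, botsF] using PS.nil, by simp⟩
      | cons _ _ => simp [opn, Runs] at hr
    | cons _ _ =>
      cases hs with
      | nil => simp [opn, Runs] at hr
      | cons _ _ => simp [opn, Runs] at hr
  | cons e ls ih =>
    cases Dss with
    | nil =>
      cases hs with
      | nil => simp [opn, Runs] at hr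
      | cons _ _ => simp [opn, Runs] at hr
    | cons Ds Dss =>
      cases hs with
      | nil => simp [opn, Runs] at hr
      | cons h hs =>
        obtain ⟨h1, h2, h3, h4⟩ := hr
        obtain ⟨x, hx, hx'⟩ := ih h4
        have h5 := PS.openRun (y := bot e.2) hp (bot_width _) h2
        rw [h1] at h5
        refine ⟨p - h + x, ?_, ?_⟩
        · have h6 := h5.app hx
          rw [legsF_cons, List.flatten_cons, wts_append]
          have e6 : Irr87.app (bot e.2) (botsF ls) = botsF (e :: ls) := rfl
          rw [e6] at h6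
          simpa using h6
        · simp only [List.sum_cons, List.length_cons]
          rw [Nat.mul_add, Nat.mul_one]
          omega

end Irr87
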