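import Pool.Agent.Helper87.Irr.GoalsT

namespace Irr87

open Irr37

/-! ### labels -/

theorem exists_max_label {p : ℕ} {R : Finset ℕ} (hR : R ⊆ Finset.Icc 1 p) (h : 1 ≤ R.card) :
    ∃ M ∈ R, R.card ≤ M ∧ M ≤ p ∧ ∀ a ∈ R, a ≤ M := by
  have hne : R.Nonempty := Finset.card_pos.1 h
  refine ⟨R.max' hne, R.max'_mem hne, ?_, ?_, fun a ha => R.le_max' a ha⟩
  · have h1 : R ⊆ Finset.Icc 1 (R.max' hne) := by
      intro x hx
      rw [Finset.mem_Icc]
      exact ⟨(Finset.mem_Icc.1 (hR hx)).1, R.le_max' x hx⟩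
    have h2 := Finset.card_le_card h1
    simpa using h2
  · exact (Finset.mem_Icc.1 (hR (R.max'_mem hne))).2

theorem exists_min_label {p : ℕ} {R : Finset ℕ} (hR : R ⊆ Finset.Icc 1 p) (h : 1 ≤ R.card) :
    ∃ m ∈ R, m + R.card ≤ p + 1 ∧ 1 ≤ m ∧ ∀ a ∈ R, m ≤ a := by
  have hne : R.Nonempty := Finset.card_pos.1 h
  refine ⟨R.min' hne, R.min'_mem hne, ?_, ?_, fun a ha => R.min'_le a ha⟩
  · have h1 : R ⊆ Finset.Icc (R.min' hne) p := by
      intro x hx
      rw [Finset.mem_Icc]
      exact ⟨R.min'_le x hx, (Finset.mem_Icc.1 (hR hx)).2⟩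
    have h2 := Finset.card_le_card h1
    have h3 := (Finset.mem_Icc.1 (hR (R.min'_mem hne)))
    rw [Nat.card_Icc] at h2
    omega
  · exact (Finset.mem_Icc.1 (hR (R.min'_mem hne))).1

theorem sum_id_val (X : Finset ℕ) : X.sum id = X.val.sum := by
  rw [Finset.sum_eq_multiset_sum, Multiset.map_id]

/-! ### from children forests to clusters -/

theorem FSolves.solves {p s z l : ℕ} {f r : RF} {res : Multiset ℕ} (hz : z < p)
    (h : FSolves p s z true 0 l f r res) : Solves p s z (RF.cons l f RF.nil) r res := by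
  intro V fill hIn hcard hfill hb hnd
  simp only [RF.size, RF.leaves] at hcard hfill
  obtain ⟨A, x, W, L, Ds, h0, w, h1, h2, h3, h4, h5, h6, h7, h8, h9⟩ :=
    h V fill hIn (by omega) (by omega) hb hnd
  have hDs : Ds = [] := List.length_eq_zero_iff.1 h4
  subst hDs
  have h10 : z = h0 := h5
  subst h10
  have h11 := PS.single (p := p) (A := A) (y := p - z) (by omega) (by omega) h2
  rw [h1, h3] at h11
  have hw : A.sum + x + (p - z) = w := by simpa using h7.symm
  rw [hw] at h11
  refine ⟨_, h11, ?_, ?_⟩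
  · simpa [wts] using h8
  · simpa [wts] using h9

theorem FSolves.solvesUp {p s n₀ l : ℕ} {f r : RF} {res : Multiset ℕ} (hn : 1 ≤ n₀)
    (h : FSolves p s 0 true n₀ l f r res) :
    Solves p s 0 (zrun n₀ (RF.cons l f RF.nil)) r res := by
  intro V fill hIn hcard hfill hb hnd
  simp only [zrun_size, zrun_leaves, RF.size, RF.leaves] at hcard hfill
  obtain ⟨A, x, W, L, Ds, h0, w, h1, h2, h3, h4, h5, h6, h7, h8, h9⟩ :=
    h V fill hIn (by omega) (by omega) hb hnd
  have hne : Ds ≠ [] := by
    rintro rfl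
    simp at h4
    omega
  have h11 := PS.single (p := p) (A := A) (y := p - h0) (by omega) (by omega) h2
  have h12 := h11.upRun h6 (ChS_of_chain hne h5)
  rw [h4, h1, h3] at h12
  have hw : A.sum + x + (p - h0) = w := by simpa using h7.symm
  rw [hw] at h12
  have e : wts p Ds + w ::ₘ W = w ::ₘ (W + wts p Ds) := by
    rw [Multiset.add_cons, add_comm]
  rw [e] at h12
  exact ⟨_, by simpa using h12, h8, h9⟩

theorem FSolves.usolves {p l : ℕ} {f r : RF} {res : Multiset ℕ}
    (h : FSolves p 0 0 false 0 l f r res) : USolves p l f r res := by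
  intro V fill hcard hfill hb hnd
  obtain ⟨A, x, W, L, Ds, h0, w, h1, h2, h3, h4, h5, h6, h7, h8, h9⟩ :=
    h V fill (by intro y hy; omega) (by omega) hfill hb hnd
  have hDs : Ds = [] := List.length_eq_zero_iff.1 h4
  subst hDs
  have hw : A.sum + x = w := by simpa using h7.symm
  refine ⟨A, x, W, L, h1, h2, h3, ?_, ?_⟩
  · rw [hw]; simpa [wts] using h8
  · rw [hw]; simpa [wts] using h9

theorem Solves.mono {p s z : ℕ} {t r : RF} {res : Multiset ℕ} (h : Solves p s z t r res) :
    Solves p s z t r res := h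

/-! ### small facts on forests -/

theorem dperm_of_perm_child {l : ℕ} {ch f : RF} (h : RF.Perm ch f) :
    DPerm (RF.cons l ch RF.nil) (RF.cons l f RF.nil) :=
  DPerm.cons l (DPerm.of_perm h) DPerm.nil

theorem not_legc_of_width {c : RF} (h : 2 ≤ c.width) : ¬ Legc c := by
  intro hl
  cases hl with
  | bot b => simp [RF.width] at h
  | zero _ => simp [RF.width] at h

theorem Legc.width {c : RF} (h : Legc c) : c.width = 1 := by
  cases h <;> rfl

theorem noLeg_single_zrun {c : RF} (h : ¬ Legc c) (l : ℕ) : NoLeg (RF.cons l c RF.nil) :=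
  noLeg_cons.2 ⟨fun _ => h, noLeg_nil⟩

/-- the tree below a heavy or light vertex without leg -/
theorem noLeg_of_single {c : RF} (hw : c.width = 1) (h : ∀ t, c = RF.cons 0 t RF.nil → ¬ Legc t) :
    NoLeg c := by
  cases c with
  | nil => exact noLeg_nil
  | cons l t s =>
    cases s with
    | nil =>
      refine noLeg_cons.2 ⟨?_, noLeg_nil⟩
      rintro rfl
      exact h t rfl
    | cons _ _ _ => simp [RF.width] at hw

theorem width_one_cases {c : RF} (hw : c.width = 1) : ∃ l t, c = RF.cons l t RF.nil := by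
  cases c with
  | nil => simp [RF.width] at hw
  | cons l t s =>
    cases s with
    | nil => exact ⟨l, t, rfl⟩
    | cons _ _ _ => simp [RF.width] at hw

theorem width_zero {c : RF} (h : c.width = 0) : c = RF.nil := by
  cases c with
  | nil => rfl
  | cons _ _ _ => simp [RF.width] at h

/-- from a star to a cluster at a hub -/
theorem cluI_of_starRes {p s l : ℕ} {R : Finset ℕ} {ch g : RF} {ls : List (ℕ × ℕ)}
    (hp : RF.Perm ch (app (legsF ls) g)) (hg : NoLeg g) (hv : ch.Valid)
    (hpos : ∀ e ∈ ls, 1 ≤ e.1 ∧ 1 ≤ e.2) (h : StarRes p s R true 0 l ls g) :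
    CluI p s R 0 (RF.cons l ch RF.nil) := by
  obtain ⟨ls', ls'', res, h1, h2, h3, h4, h5, _, h6⟩ := h
  have hperm : ∀ {a b : List (ℕ × ℕ)}, a.Perm b → ∀ k, DPerm (app (legsF a) k) (app (legsF b) k) := by
    intro a b hab
    induction hab with
    | nil => exact fun k => DPerm.refl _
    | cons x _ ih =>
      intro k
      rw [legsF_cons, legsF_cons, app_assoc, app_assoc]
      exact DPerm.app (DPerm.refl _) (ih k)
    | swap x y a =>
      intro k
      simp only [legsF_cons, app_assoc]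
      obtain ⟨l1, t1, e1⟩ := width_one_cases (zrun_width x.1 (bot x.2) (bot_width _))
      obtain ⟨l2, t2, e2⟩ := width_one_cases (zrun_width y.1 (bot y.2) (bot_width _))
      rw [e1, e2]
      exact DPerm.swap _ _ _ _ _
    | trans _ _ ih1 ih2 => exact fun k => (ih1 k).trans (ih2 k)
  have hd : DPerm ch (app (legsF ls') g) := (DPerm.of_perm hp).trans (hperm h1.symm g)
  have hsz := hd.size_eq
  have hlv := hd.leaves_eq
  have hva := hd.valid hv
  rw [app_size, legsF_size] at hsz
  rw [app_leaves, legsF_leaves] at hlv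
  rw [app_valid] at hva
  have hpos' : ∀ e ∈ ls', 1 ≤ e.1 ∧ 1 ≤ e.2 := fun e he => hpos e (h1.subset he)
  have e1 : (ls'.map Prod.fst).sum = (ls.map Prod.fst).sum := (h1.map _).sum_eq
  have e2 : (ls'.map Prod.snd).sum = (ls.map Prod.snd).sum := (h1.map _).sum_eq
  have e3 : ls'.length = ls.length := h1.length_eq
  have e4 : ls''.length ≤ ls'.length := h2.length_le
  refine ⟨RF.cons l (app (legsF ls') g) RF.nil, app (botsF ls'') g, res,
    ⟨DPerm.cons l hd DPerm.nil, h3, ?_, ?_, ?_, ?_, ?_⟩, ?_⟩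
  · simp only [RF.size, app_size, botsF_size]
    omega
  · simp only [RF.size, app_size, botsF_size]
    have : ls'.length ≤ (ls'.map Prod.fst).sum + ls'.length := by omega
    omega
  · simp only [RF.leaves, app_leaves, botsF_leaves]
    omega
  · rw [app_valid]
    exact ⟨botsF_valid fun e he => (hpos' e (h2.subset he)).2, hva.2⟩
  · exact noLeg_app.2 ⟨botsF_noLeg fun e he => (hpos' e (h2.subset he)).2, hg⟩
  · intro z hz
    exact (h6 z ⟨hz, Or.inr ⟨rfl, rfl⟩⟩).solves hz

end Irr87
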