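import Pool.Agent.Irr37.Reroot

/-!
MP_033e98_co, cluster route: definitions.

`RF` = rooted forests (Irr37.Rep).  A *planted* forest is a forest all of whose top edges carry the
label `p`.  Weights are described by deficits: level-2 weights `2p - D`, level-3 weights `3p - t`;
labels by deficits too: label `p - z`.
-/

namespace Irr87

open Irr37

/-- a label `p - z` on the edge to the next vertex of a cluster is *certified* by the used weights `V`:
for all `y ≤ z` there are at least `y` used weights above `3p - y` -/
def In (p : ℕ) (V : Finset ℕ) (z : ℕ) : Prop :=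
  ∀ y ≤ z, y ≤ (V.filter (fun w => 3 * p < w + y)).card

/-- a path of vertices of degree two: `a` = deficit of the first edge label, `b` = deficit of the last
edge label, `Ds` = deficits of the vertex weights: the vertex between the edges with labels `p - a`
and `p - a'` has weight `2p - D` with `D = a + a'`. -/
def Chain (p : ℕ) : ℕ → List ℕ → ℕ → Prop
  | a, [], b => a = b
  | a, D :: l, b => a ≤ D ∧ D < p ∧ Chain p (D - a) l b

/-- the weights with deficits `Ds` -/
def wts (p : ℕ) (Ds : List ℕ) : Multiset ℕ := ((Ds.map (fun D => 2 * p - D) : List ℕ) : Multiset ℕ)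

/-- append two forests -/
def app : RF → RF → RF
  | RF.nil, g => g
  | RF.cons l ch s, g => RF.cons l ch (app s g)

/-- `n` zeros (vertices of degree two) on top of the (single) tree `t` -/
def zrun : ℕ → RF → RF
  | 0, t => t
  | n + 1, t => RF.cons 0 (zrun n t) RF.nil

/-- a single bottom with `b` leaves -/
def bot (b : ℕ) : RF := RF.cons b RF.nil RF.nil

/-- legs: `(r, b)` is a run of `r` zeros ending in a bottom with `b` leaves -/
def legsF : List (ℕ × ℕ) → RF
  | [] => RF.nil
  | (r, b) :: ls => app (zrun r (bot b)) (legsF ls)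

/-- the bottoms of the legs -/
def botsF : List (ℕ × ℕ) → RF
  | [] => RF.nil
  | (_, b) :: ls => RF.cons b RF.nil (botsF ls)

/-- zeros ending in a bottom -/
inductive Legc : RF → Prop
  | bot (b : ℕ) : Legc (RF.cons b RF.nil RF.nil)
  | zero {t : RF} (h : Legc t) : Legc (RF.cons 0 t RF.nil)

/-- no top-level tree of `f` is a leg (a run of at least one zero ending in a bottom) -/
def NoLeg (f : RF) : Prop := ∀ ch, RF.Top f 0 ch → ¬ Legc ch

/-- permuting children everywhere -/
inductive DPerm : RF → RF → Prop
  | nil : DPerm RF.nil RF.nil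
  | cons (l : ℕ) {ch ch' s s' : RF} (h : DPerm ch ch') (h' : DPerm s s') :
      DPerm (RF.cons l ch s) (RF.cons l ch' s')
  | swap (l l' : ℕ) (ch ch' s : RF) :
      DPerm (RF.cons l ch (RF.cons l' ch' s)) (RF.cons l' ch' (RF.cons l ch s))
  | trans {f g h : RF} (h1 : DPerm f g) (h2 : DPerm g h) : DPerm f h

/-- Partial solutions. `PS p f x W L r`: in the forest `f` some trees (the forest `r` of planted
subtrees) have been cut off (their top edges carry the label `p`), all other vertices are labelled;
`x` is the sum of the labels on the top edges of `f`, `W` the weights of the labelled vertices, `L`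
the leaf labels used. -/
inductive PS (p : ℕ) : RF → ℕ → Multiset ℕ → Multiset ℕ → RF → Prop
  | nil : PS p RF.nil 0 0 0 RF.nil
  | vert {A : Multiset ℕ} {ch sib : RF} {x x' y : ℕ} {W W' L L' : Multiset ℕ} {r r' : RF}
      (h1 : 1 ≤ y) (h2 : y ≤ p) (h : PS p ch x W L r) (h' : PS p sib x' W' L' r') :
      PS p (RF.cons (Multiset.card A) ch sib) (y + x') ((A.sum + x + y) ::ₘ (W + W')) (A + L + L')
        (app r r')
  | cut {l : ℕ} {ch sib : RF} {x' : ℕ} {W' L' : Multiset ℕ} {r' : RF}
      (h' : PS p sib x' W' L' r') :
      PS p (RF.cons l ch sib) (p + x') W' L' (RF.cons l ch r')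

/-- The cluster `t ↦ r` (the tree `t` without the planted subtrees `r`) can be solved last, against
any set `V` of other weights with `#V + #cluster + s ≤ p + 1`, with reserved labels `res` and
arbitrary further labels `fill`, when the top edge of `t` carries the label `p - z`. -/
def Solves (p s z : ℕ) (t r : RF) (res : Multiset ℕ) : Prop :=
  ∀ (V : Finset ℕ) (fill : Multiset ℕ), In p V z → V.card + t.size + s ≤ p + 1 + r.size →
    Multiset.card fill + Multiset.card res + r.leaves = t.leaves →
    (∀ a ∈ fill, 1 ≤ a ∧ a ≤ p) → (res + fill).Nodup →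
    ∃ W, PS p t (p - z) W (res + fill) r ∧ W.Nodup ∧ ∀ w ∈ W, p < w ∧ w ∉ V

/-- numerical conditions on a cluster `t ↦ r` with reserved labels `res` (`d` more labels than
vertices may be reserved) -/
structure Nums (R : Finset ℕ) (d : ℕ) (t t' r : RF) (res : Finset ℕ) : Prop where
  dperm : DPerm t t'
  sub : res ⊆ R
  size : res.card + r.size ≤ t.size + d
  lt : r.size < t.size
  leaves : res.card + r.leaves ≤ t.leaves
  valid : r.Valid
  noleg : NoLeg r

/-- the tree `t` has a cluster solvable at cost `s` with reserved labels from `R` (planted) -/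
def Clu (p s : ℕ) (R : Finset ℕ) (d : ℕ) (t : RF) : Prop :=
  ∃ t' r res, Nums R d t t' r res ∧ Solves p s 0 t' r res.val

/-- the same with any certified label `p - z` on the top edge -/
def CluI (p s : ℕ) (R : Finset ℕ) (d : ℕ) (t : RF) : Prop :=
  ∃ t' r res, Nums R d t t' r res ∧ ∀ z < p, Solves p s z t' r res.val

end Irr87
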