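import Pool.Agent.Helper87.Irr.All
import Pool.Agent.Irr37.Upper
import Pool.Agent.Irr37.Bridge

/-!
MP_033e98_co: the exact value of `n(p)`.
-/

namespace Irr87

open Irr37

/-- `n(2) = 4` and `n(p) = 2p + 1` for all `p ≥ 3`. -/
theorem target : Target := by
  refine target_of fun p hp n hn T hT hl => ?_
  refine bridge p (2 * p + 1) hp (fun l ch hv hlv hsz => ?_) n hn T hT hl
  exact lower' p l ch hp hv hlv (by omega)

end Irr87
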