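import Pool.Agent.Helper87.Irr.Basics

/-!
MP_033e98_co, cluster route: arithmetic statements (no trees).
-/

namespace Irr87

open Irr37

/-- a path of vertices of degree two, listed from its outer end: `S` is the sum of the labels at the
outer vertex that do not belong to the path (the label `p` of the outer edge, or the leaf labels of an
included bottom), `Ds` the deficits of the vertices, `h` the deficit of the label of the inner edge. -/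
def ChS (p S : ℕ) (Ds : List ℕ) (h : ℕ) : Prop :=
  ∃ D l, Ds = D :: l ∧ p ≤ S + D ∧ S + D < 2 * p ∧ D < p ∧ Chain p (S + D - p) l h

/-- a list of runs: `(n, S)` is a run with `n` vertices and outer sum `S` -/
def Runs (p : ℕ) : List (ℕ × ℕ) → List (List ℕ) → List ℕ → Prop
  | [], [], [] => True
  | (n, S) :: ns, Ds :: Dss, h :: hs => Ds.length = n ∧ ChS p S Ds h ∧ h < p ∧ Runs p ns Dss hs
  | _, _, _ => False

/-- A central vertex with constant `C` (sum of the labels at it which do not belong to the runs),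
and runs attached to it: all weights can be chosen distinct, `> p`, outside `V`. -/
def Star (p : ℕ) (V : Finset ℕ) (C : ℕ) (runs : List (ℕ × ℕ)) : Prop :=
  ∃ (Dss : List (List ℕ)) (hs : List ℕ) (w : ℕ), Runs p runs Dss hs ∧ Dss.flatten.Nodup ∧
    (∀ D ∈ Dss.flatten, 2 * p - D ∉ V ∧ 2 * p - D ≠ w) ∧
    w + hs.sum = C + p * runs.length ∧ p < w ∧ w ∉ V

/-- number of odd entries -/
def oddc (ns : List ℕ) : ℕ := (ns.filter (fun n => n % 2 = 1)).length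

/-- open runs: outer label `p` -/
def opn (p : ℕ) (ns : List ℕ) : List (ℕ × ℕ) := ns.map (fun n => (n, p))

/-- A1: end of a path. -/
def EL : Prop := ∀ (p s z B S : ℕ) (V : Finset ℕ), In p V z → 2 * p ≤ B + z → p ≤ S + s →
  S ≤ p + s → V.card + 2 + s ≤ p + 1 →
  ∃ x, 1 ≤ x ∧ x ≤ p ∧ p < S + x ∧ S + x ∉ V ∧ p < B + x ∧ B + x ∉ V ∧ B + x ≠ S + x

/-- A2: path step. -/
def PStep : Prop := ∀ (p z B : ℕ) (V : Finset ℕ), In p V z → 2 * p ≤ B + z → V.card + 1 ≤ p →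
  ∃ x, 1 ≤ x ∧ x ≤ p ∧ p < B + x ∧ B + x ∉ V ∧ In p (insert (B + x) V) (p - x)

/-- A3: one open run, `K` = uncertified deficit of the centre. -/
def RE : Prop := ∀ (p n K z C : ℕ) (V : Finset ℕ), 1 ≤ n → In p V z → 3 * p ≤ C + p + z + K →
  V.card + 1 + n + K ≤ p + 1 → Star p V C [(n, p)]

/-- A4: placing open runs with the smallest free deficits. -/
def Place : Prop := ∀ (p : ℕ) (V : Finset ℕ) (ns : List ℕ), (∀ n ∈ ns, 1 ≤ n) →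
  V.card + ns.sum ≤ p →
  ∃ (Dss : List (List ℕ)) (hs : List ℕ) (μ : ℕ), Runs p (opn p ns) Dss hs ∧ Dss.flatten.Nodup ∧
    (∀ D ∈ Dss.flatten, 2 * p - D ∉ V) ∧ μ ≤ p ∧
    (∀ D < μ, 2 * p - D ∈ V ∨ D ∈ Dss.flatten) ∧
    hs.sum + min 1 (oddc ns) ≤ μ + (oddc ns - 1) * p ∧
    (∀ D ∈ Dss.flatten, D < V.card + ns.sum) ∧ (∀ h ∈ hs, h < V.card + ns.sum)

/-- A5: the last run (even number of vertices, outer sum `S` within `s` of `p`); `a` = weight of the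
centre when the last run contributes the label `p`; `Ψ` = uncertified deficit of the centre,
`μ` = initial segment of used level-2 deficits. -/
def Final : Prop := ∀ (p s z Ψ μ n S a : ℕ) (V : Finset ℕ), Even n → 1 ≤ n → p ≤ S + s → S ≤ p + s →
  Ψ ≤ μ + s → μ ≤ p → (∀ D < μ, 2 * p - D ∈ V) → In p V z → 3 * p ≤ a + z + Ψ →
  V.card + 1 + n + s ≤ p + 1 →
  ∃ (Ds : List ℕ) (h w : ℕ), Ds.length = n ∧ ChS p S Ds h ∧ h < p ∧ Ds.Nodup ∧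
    (∀ D ∈ Ds, 2 * p - D ∉ V ∧ 2 * p - D ≠ w) ∧ w + h = a ∧ p < w ∧ w ∉ V

/-- A6 -/
def Star0 : Prop := ∀ (p z C : ℕ) (V : Finset ℕ) (ns : List ℕ), ns ≠ [] → (∀ n ∈ ns, 1 ≤ n) →
  In p V z → (2 + max 1 (oddc ns)) * p ≤ C + z + p * ns.length → V.card + 1 + ns.sum ≤ p + 1 →
  Star p V C (opn p ns)

/-- A7 -/
def Star1 : Prop := ∀ (p s z K C : ℕ) (V : Finset ℕ) (ns : List ℕ) (n S : ℕ), (∀ m ∈ ns, 1 ≤ m) →
  Even n → 1 ≤ n → p ≤ S + s → S ≤ p + s → K ≤ s + min 1 (oddc ns) → In p V z →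
  3 * p + (oddc ns - 1) * p ≤ C + z + K + p * (ns.length + 1) →
  V.card + 1 + ns.sum + n + s ≤ p + 1 → Star p V C ((n, S) :: opn p ns)

/-- A8 -/
def Star2 : Prop := ∀ (p s C : ℕ) (V : Finset ℕ) (ns : List ℕ) (n₁ S₁ n₂ S₂ : ℕ),
  (∀ m ∈ ns, 1 ≤ m) → 1 ≤ oddc ns → Even n₁ → 1 ≤ n₁ → Even n₂ → 1 ≤ n₂ →
  S₁ ≤ p → p ≤ S₁ + s → S₂ ≤ p → p ≤ S₂ + s + 1 →
  3 * p + (oddc ns - 1) * p ≤ C + p * (ns.length + 2) →
  V.card + 1 + ns.sum + n₁ + n₂ + s ≤ p + 1 → Star p V C ((n₁, S₁) :: (n₂, S₂) :: opn p ns)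

/-- A9: the large regime -/
def StarL : Prop := ∀ (p C P₀ u : ℕ) (V : Finset ℕ) (ns : List ℕ), ns ≠ [] → (∀ n ∈ ns, 1 ≤ n) →
  2 * (V.card + ns.sum) ≤ p + 1 → P₀ + u * (V.card + ns.sum - 1) ≤ p - 1 →
  3 * p + (ns.length - 1 - u) * p ≤ C + P₀ + p * ns.length → Star p V C (opn p ns)

/-- the numerical condition of the triple lemma -/
def PTcond (p s S S' : ℕ) : Prop :=
  p ≤ min S S' + s ∧
  (p - max S S') + (p - min S S') + (min S S' + p - max p (max S S')) + 1 ≤ 2 * s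

/-- A10: triple -/
def PT : Prop := ∀ (p s z c S S' : ℕ) (V : Finset ℕ), In p V z → p ≤ c + z → PTcond p s S S' →
  V.card + 3 + s ≤ p + 1 →
  ∃ x y, 1 ≤ x ∧ x ≤ p ∧ 1 ≤ y ∧ y ≤ p ∧ p < S + x ∧ S + x ∉ V ∧ p < S' + y ∧ S' + y ∉ V ∧
    p < c + x + y ∧ c + x + y ∉ V ∧ S + x ≠ S' + y ∧ S + x ≠ c + x + y ∧ S' + y ≠ c + x + y

/-- A11: triple for the tight start -/
def SP : Prop := ∀ (p c S S' : ℕ) (V : Finset ℕ), p ≤ c → 2 * p ≤ S → p ≤ S' → S' ≤ p + 1 →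
  V.card + 3 ≤ p + 1 →
  ∃ x y, 1 ≤ x ∧ x ≤ p ∧ 1 ≤ y ∧ y ≤ p ∧ p < S + x ∧ S + x ∉ V ∧ p < S' + y ∧ S' + y ∉ V ∧
    p < c + x + y ∧ c + x + y ∉ V ∧ S + x ≠ S' + y ∧ S + x ≠ c + x + y ∧ S' + y ≠ c + x + y

/-- A12: explicit vertices `(ℓ, b)`: `ℓ ≥ 1` leaves, sum `b` of the other labels -/
def EP : Prop := ∀ (R : Finset ℕ) (E : List (ℕ × ℕ)), (∀ e ∈ E, 1 ≤ e.1) →
  (E.map Prod.fst).sum ≤ R.card →
  ∃ As : List (Multiset ℕ), As.map Multiset.card = E.map Prod.fst ∧ As.sum ≤ R.val ∧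
    (List.zipWith (fun (A : Multiset ℕ) (e : ℕ × ℕ) => A.sum + e.2) As E).Nodup

/-- label choices for the legs of a star (small regime) -/
structure Lab (p s : ℕ) (R : Finset ℕ) : Prop where
  T : 1 ≤ R.card → ∃ M ∈ R, p ≤ M + s
  F : 2 ≤ R.card → ∃ X ⊆ R, X.card = 2 ∧ X.sum id = p
  TT : 2 ≤ R.card → ∃ M ∈ R, ∃ M' ∈ R, M ≠ M' ∧ p ≤ M + s ∧ p ≤ M' + s + 1
  FT : 3 ≤ R.card → ∃ X ⊆ R, X.card = 2 ∧ X.sum id = p ∧ ∃ M ∈ R, M ∉ X ∧ p ≤ M + s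
  FF : 4 ≤ R.card → s + 5 ≤ p → ∃ X ⊆ R, ∃ X' ⊆ R, Disjoint X X' ∧ X.card = 2 ∧ X.sum id = p ∧
    X'.card = 2 ∧ p ≤ X'.sum id + s ∧ X'.sum id ≤ p + s
  O : 3 ≤ R.card → ∃ X ⊆ R, X.card = 3 ∧ 2 * p ≤ X.sum id + s
  TO : 4 ≤ R.card → ∃ M ∈ R, p ≤ M + s ∧ ∃ X ⊆ R, M ∉ X ∧ X.card = 3 ∧ 2 * p ≤ X.sum id + s + 2
  FO : 5 ≤ R.card → ∃ X ⊆ R, ∃ X' ⊆ R, Disjoint X X' ∧ X.card = 2 ∧ X.sum id = p ∧
    X'.card = 3 ∧ 2 * p ≤ X'.sum id + s + 2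
  OO : 6 ≤ R.card → ∃ X ⊆ R, ∃ X' ⊆ R, Disjoint X X' ∧ X.card = 3 ∧ 2 * p ≤ X.sum id + s + 2 ∧
    X'.card = 3 ∧ 2 * p ≤ X'.sum id + s + 4

/-- A13 -/
def LabMain : Prop := ∀ (p s : ℕ) (R : Finset ℕ), R ⊆ Finset.Icc 1 p → p + 1 ≤ s + R.card →
  2 * s + 2 ≤ p → Lab p s R

/-- A14 -/
def LabStart : Prop := ∀ p : ℕ, 3 ≤ p → Lab p 0 (Finset.Icc 1 p)

/-- reserved labels for a triple: vertices with `l₁`, `l₂` leaves and constants `c₁`, `c₂`;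
`l` further leaves at the middle vertex -/
def SplitOK (p s : ℕ) (R : Finset ℕ) (k l l₁ l₂ c₁ c₂ : ℕ) : Prop :=
  ∃ res ⊆ R, res.card = k ∧ ∀ fill : Multiset ℕ, (∀ a ∈ fill, 1 ≤ a ∧ a ≤ p) →
    (res.val + fill).Nodup → Multiset.card fill + k = l + l₁ + l₂ →
    ∃ A A₁ A₂ : Multiset ℕ, Multiset.card A = l ∧ Multiset.card A₁ = l₁ ∧ Multiset.card A₂ = l₂ ∧
      A + A₁ + A₂ = res.val + fill ∧ PTcond p s (A₁.sum + c₁) (A₂.sum + c₂)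

/-- A15: two heavy vertices of F-degree two -/
def Split1 : Prop := ∀ (p s : ℕ) (R : Finset ℕ) (l l₁ l₂ : ℕ), R ⊆ Finset.Icc 1 p →
  p + 1 ≤ s + R.card → l + l₁ + l₂ ≤ R.card → 2 ≤ l₁ → 2 ≤ l₂ → SplitOK p s R 2 l l₁ l₂ p p

/-- A16: a heavy vertex of F-degree two and an obese bottom -/
def Split2 : Prop := ∀ (p s : ℕ) (R : Finset ℕ) (l l₁ l₂ : ℕ), R ⊆ Finset.Icc 1 p →
  p + 1 ≤ s + R.card → l + l₁ + l₂ ≤ R.card → 2 ≤ l₁ → 3 ≤ l₂ → SplitOK p s R 3 l l₁ l₂ p 0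

/-- A17: two obese bottoms with different numbers of leaves -/
def Split3 : Prop := ∀ (p s : ℕ) (R : Finset ℕ) (l l₁ l₂ : ℕ), R ⊆ Finset.Icc 1 p →
  p + 1 ≤ s + R.card → l + l₁ + l₂ ≤ R.card → 3 ≤ l₁ → l₁ < l₂ → SplitOK p s R 3 l l₁ l₂ 0 0

/-- A18: two obese bottoms with the same number of leaves -/
def Split3e : Prop := ∀ (p s : ℕ) (R : Finset ℕ) (l l₁ : ℕ), R ⊆ Finset.Icc 1 p →
  p + 1 ≤ s + R.card → l + l₁ + l₁ ≤ R.card → 3 ≤ l₁ → SplitOK p s R 4 l l₁ l₁ 0 0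

end Irr87
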