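import Pool.Agent.Helper87.Irr.Basics2

/-!
MP_033e98_co, cluster route: statements about clusters in trees.
-/

namespace Irr87

open Irr37

/-- T1: a vertex with an open run below it (`y` = the tree below the run, cut off). -/
def TRun : Prop := ∀ (p s z l n : ℕ) (y g : RF), z < p → 1 ≤ n → y.width = 1 → 1 ≤ g.width →
  Solves p s z (RF.cons l (app (zrun n y) g) RF.nil) (app y g) 0

/-- T2: a vertex and a bottom below it, with `|X - p| ≤ s`. -/
def TBot : Prop := ∀ (p s z l : ℕ) (X : Multiset ℕ) (g : RF), z < p → 1 ≤ g.width →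
  X ≠ 0 → p ≤ X.sum + s → X.sum ≤ p + s →
  Solves p s z (RF.cons l (RF.cons (Multiset.card X) RF.nil g) RF.nil) g X

/-- T3: a vertex and a light vertex of F-degree two below it. -/
def TLight : Prop := ∀ (p s z l m : ℕ) (y g : RF), z < p → 1 ≤ m → m ≤ s → y.width = 1 →
  1 ≤ g.width → Solves p s z (RF.cons l (RF.cons 1 y g) RF.nil) (app y g) {m}

/-- T4: a vertex, a vertex of F-degree two with label `M` below it, and an open run below that. -/
def TThrough : Prop := ∀ (p s z l l' n M : ℕ) (y g : RF), z < p → 1 ≤ n → 1 ≤ l' → p ≤ M + s →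
  y.width = 1 → 1 ≤ g.width →
  Solves p s z (RF.cons l (RF.cons l' (zrun n y) g) RF.nil) (app y g) {M}

/-- T5: one more vertex on top of a path. -/
def TPath : Prop := ∀ (p s l : ℕ) (t r g : RF) (res : Multiset ℕ), t.width = 1 → r.size < t.size →
  Multiset.card res + r.leaves ≤ t.leaves → 1 ≤ g.width → (∀ z < p, Solves p s z t r res) →
  ∀ z < p, Solves p s z (RF.cons l (app t g) RF.nil) (app r g) res

/-- a vertex that is a bottom (`y = nil`) or has F-degree two (`y` a single tree) -/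
def Small (y : RF) : Prop := y = RF.nil ∨ y.width = 1

/-- T6: the triple. -/
def TTriple : Prop := ∀ (p s l l₁ l₂ k : ℕ) (R : Finset ℕ) (y₁ y₂ g : RF), Small y₁ →
  Small y₂ → SplitOK p s R k l l₁ l₂ (p * y₁.width) (p * y₂.width) →
  ∃ res ⊆ R, res.card = k ∧ ∀ z < p,
    Solves p s z (RF.cons l (RF.cons l₁ y₁ (RF.cons l₂ y₂ g)) RF.nil) (app y₁ (app y₂ g)) res.val

/-- T7: planted vertex of F-degree two with an open run below. -/
def TC : Prop := ∀ (p s l n M : ℕ) (y : RF), 1 ≤ p → 1 ≤ n → 1 ≤ l → p ≤ M + s → y.width = 1 →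
  Solves p s 0 (RF.cons l (zrun n y) RF.nil) y {M}

/-- T8: a run, and a vertex of F-degree two below it, with label `M`. -/
def TCup : Prop := ∀ (p s l n₀ M : ℕ) (y : RF), 1 ≤ p → 1 ≤ n₀ → 1 ≤ l → p ≤ M + s →
  y.width = 1 → Solves p s 0 (zrun n₀ (RF.cons l y RF.nil)) y {M}

/-- T9: a run, a vertex of F-degree two below it, and its leg; any regime. -/
def TCupLeg : Prop := ∀ (p s l n₀ r b : ℕ) (R : Finset ℕ), R ⊆ Finset.Icc 1 p →
  p + 1 ≤ s + R.card → 1 ≤ n₀ → 1 ≤ l → 1 ≤ r → 1 ≤ b → l + b ≤ R.card →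
  n₀ + 1 + r + 1 + s ≤ p + 1 →
  ∃ (r' : RF) (res : Finset ℕ), (r' = bot b ∨ r' = RF.nil) ∧ res ⊆ R ∧
    res.card + r'.size ≤ n₀ + 1 + r + 1 ∧ res.card + r'.leaves ≤ l + b ∧
    Solves p s 0 (zrun n₀ (RF.cons l (zrun r (bot b)) RF.nil)) r' res.val

/-- the children forest `f` of a vertex with `l` leaves is solved together with the vertex; above it
there is a run of `n₀` zeros (from deficit `z`), or nothing (`top = false`) -/
def FSolves (p s z : ℕ) (top : Bool) (n₀ l : ℕ) (f r : RF) (res : Multiset ℕ) : Prop :=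
  ∀ (V : Finset ℕ) (fill : Multiset ℕ), In p V z → V.card + (n₀ + 1 + f.size) + s ≤ p + 1 + r.size →
    Multiset.card fill + Multiset.card res + r.leaves = l + f.leaves →
    (∀ a ∈ fill, 1 ≤ a ∧ a ≤ p) → (res + fill).Nodup →
    ∃ (A : Multiset ℕ) (x : ℕ) (W L : Multiset ℕ) (Ds : List ℕ) (h w : ℕ),
      Multiset.card A = l ∧ PS p f x W L r ∧ A + L = res + fill ∧ Ds.length = n₀ ∧
      Chain p z Ds h ∧ h < p ∧ w = A.sum + x + (if top then p - h else 0) ∧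
      (w ::ₘ (W + wts p Ds)).Nodup ∧ ∀ u ∈ w ::ₘ (W + wts p Ds), p < u ∧ u ∉ V

/-- the star situation: a vertex with `l` leaves, legs `ls`, other children `g`, above it a run of
`n₀` zeros (`top = true`, `n₀ ≥ 1`), or an edge with label `p - z` (`top = true`, `n₀ = 0`), or
nothing (`top = false`) -/
structure StarSit (p s : ℕ) (R : Finset ℕ) (top : Bool) (n₀ l : ℕ) (ls : List (ℕ × ℕ)) (g : RF) :
    Prop where
  topz : top = false → n₀ = 0
  pos : ∀ e ∈ ls, 1 ≤ e.1 ∧ 1 ≤ e.2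
  ne : ls ≠ [] ∨ 1 ≤ n₀
  deg : 3 ≤ ls.length + g.width + (if top then 1 else 0)
  leaves : l + (ls.map Prod.snd).sum + g.leaves ≤ R.card
  size : n₀ + 1 + ((ls.map Prod.fst).sum + ls.length) + g.size + s ≤ p + 1

/-- admissible `z`: arbitrary if there is an edge with label `p - z` directly above the vertex, `0` else -/
def AdmZ (p z : ℕ) (top : Bool) (n₀ : ℕ) : Prop := z < p ∧ (z = 0 ∨ (top = true ∧ n₀ = 0))

/-- conclusion for stars: `ls'` a permutation of the legs, `ls''` the legs that are served open (their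
bottoms remain) -/
def StarRes (p s : ℕ) (R : Finset ℕ) (top : Bool) (n₀ l : ℕ) (ls : List (ℕ × ℕ)) (g : RF) : Prop :=
  ∃ (ls' ls'' : List (ℕ × ℕ)) (res : Finset ℕ), ls'.Perm ls ∧ ls''.Sublist ls' ∧ res ⊆ R ∧
    res.card + ls''.length ≤ n₀ + 1 + ((ls.map Prod.fst).sum + ls.length) ∧
    res.card + (ls''.map Prod.snd).sum ≤ l + (ls.map Prod.snd).sum ∧
    (g ≠ RF.nil → res.card + ls''.length ≤ n₀ + ((ls.map Prod.fst).sum + ls.length)) ∧
    ∀ z, AdmZ p z top n₀ →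
      FSolves p s z top n₀ l (app (legsF ls') g) (app (botsF ls'') g) res.val

/-- T10: stars, small regime (`Lab`). -/
def TStar : Prop := ∀ (p s : ℕ) (R : Finset ℕ) (top : Bool) (n₀ l : ℕ) (ls : List (ℕ × ℕ)) (g : RF),
  Lab p s R → R ⊆ Finset.Icc 1 p → StarSit p s R top n₀ l ls g → StarRes p s R top n₀ l ls g

/-- T11: stars, large regime: all legs open. -/
def TStarL : Prop := ∀ (p s z : ℕ) (R : Finset ℕ) (n₀ l : ℕ) (ls : List (ℕ × ℕ)) (g : RF),
  p ≤ 2 * s + 1 → StarSit p s R true n₀ l ls g → AdmZ p z true n₀ →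
  FSolves p s z true n₀ l (app (legsF ls) g) (app (botsF ls) g) 0

/-- unrooted (start) clusters: the root has `l` leaves and child forest `f` -/
def USolves (p l : ℕ) (f r : RF) (res : Multiset ℕ) : Prop :=
  ∀ (V : Finset ℕ) (fill : Multiset ℕ), V.card + (1 + f.size) ≤ p + 1 + r.size →
    Multiset.card fill + Multiset.card res + r.leaves = l + f.leaves →
    (∀ a ∈ fill, 1 ≤ a ∧ a ≤ p) → (res + fill).Nodup →
    ∃ (A : Multiset ℕ) (x : ℕ) (W L : Multiset ℕ), Multiset.card A = l ∧ PS p f x W L r ∧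
      A + L = res + fill ∧ ((A.sum + x) ::ₘ W).Nodup ∧ ∀ u ∈ (A.sum + x) ::ₘ W, p < u ∧ u ∉ V

/-- U2: hub without legs next to a zero -/
def UHubRun : Prop := ∀ (p l n : ℕ) (y g : RF), 1 ≤ n → y.width = 1 → 2 ≤ g.width →
  USolves p l (app (zrun n y) g) (app y g) 0

/-- U3: vertex of F-degree two, with a leaf labelled `p`, next to a zero -/
def UCRun : Prop := ∀ (p l n : ℕ) (y g : RF), 1 ≤ n → y.width = 1 → 1 ≤ l → g.width = 1 →
  USolves p l (app (zrun n y) g) (app y g) {p}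

/-- U4: vertex of F-degree two with two legs -/
def UCLegs : Prop := ∀ (p l r₁ b₁ r₂ b₂ : ℕ), 1 ≤ l → 1 ≤ r₁ → 1 ≤ b₁ → 1 ≤ r₂ → 1 ≤ b₂ →
  l + b₁ + b₂ = p →
  ∃ (r : RF) (res : Finset ℕ), res ⊆ Finset.Icc 1 p ∧ res.card + r.leaves ≤ p ∧
    (r = app (bot b₁) (bot b₂) ∨ r = bot b₁ ∨ r = bot b₂ ∨ r = RF.nil) ∧
    (USolves p l (app (zrun r₁ (bot b₁)) (zrun r₂ (bot b₂))) r res.val ∨
     USolves p l (app (zrun r₂ (bot b₂)) (zrun r₁ (bot b₁))) r res.val)

/-- U5: hub next to a thin bottom -/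
def UThin : Prop := ∀ (p l : ℕ) (g : RF), 2 ≤ g.width → USolves p l (RF.cons 1 RF.nil g) g {p}

/-- U6: triple at the start: `v` (root), a light vertex `y` of F-degree two with label `1`, and `w`
which is a hub, or a vertex of F-degree two with label `p` -/
def UTriple : Prop := ∀ (p l lw : ℕ) (y yw g : RF), 2 ≤ p → y.width = 1 → 1 ≤ g.width →
  (2 ≤ yw.width → USolves p l (RF.cons 1 y (RF.cons lw yw g)) (app y (app yw g)) {1}) ∧
  (yw.width = 1 → 1 ≤ lw → USolves p l (RF.cons 1 y (RF.cons lw yw g)) (app y (app yw g)) {1, p})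

/-- U7: double brooms -/
def Broom : Prop := ∀ (p b b' r : ℕ), 3 ≤ p → 1 ≤ b → 1 ≤ b' → b + b' = p → 1 ≤ r → r + 2 ≤ p + 1 →
  Solved p b (zrun r (bot b'))

/-- S1: splitting off the legs -/
def SLegs : Prop := ∀ ch : RF, ch.Valid → ∃ (ls : List (ℕ × ℕ)) (g : RF),
  RF.Perm ch (app (legsF ls) g) ∧ NoLeg g ∧ ∀ e ∈ ls, 1 ≤ e.1 ∧ 1 ≤ e.2

/-- S2: a run ends in a vertex which is not a zero -/
def SZero : Prop := ∀ ch : RF, ch.Valid → ch.width = 1 →
  ∃ (n l : ℕ) (c : RF), ch = zrun n (RF.cons l c RF.nil) ∧ (1 ≤ l ∨ 2 ≤ c.width) ∧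
    (¬ Legc ch → c ≠ RF.nil)

/-- no zeros in the forest -/
def NoZero (f : RF) : Prop := ∀ c, RF.Occ f 0 c → 2 ≤ c.width

/-- S3: a tree with a zero which is not a double broom can be rooted at a vertex next to a zero
which is neither a zero nor a bottom -/
def SZeroRoot : Prop := ∀ (l : ℕ) (ch : RF), RValid l ch → ch ≠ RF.nil →
  (¬ NoZero ch ∨ (l = 0 ∧ ch.width = 2)) →
  (∃ b r b', 1 ≤ b ∧ 1 ≤ b' ∧ 1 ≤ r ∧ Eqv l ch b (zrun r (bot b'))) ∨
  (∃ (l' n : ℕ) (y g : RF), Eqv l ch l' (app (zrun n y) g) ∧ 1 ≤ n ∧ y.width = 1 ∧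
    1 ≤ g.width ∧ (1 ≤ l' ∨ 2 ≤ g.width))

/-- S4: a tree without zeros with one more vertex than leaves -/
def STight : Prop := ∀ (l : ℕ) (ch : RF), RValid l ch → NoZero ch → ¬ (l = 0 ∧ ch.width = 2) →
  1 + ch.size = l + ch.leaves + 1 →
  (∃ (l' : ℕ) (g : RF), Eqv l ch l' (RF.cons 1 RF.nil g) ∧ 2 ≤ g.width) ∨
  (∃ (l' lw : ℕ) (y yw g : RF), Eqv l ch l' (RF.cons 1 y (RF.cons lw yw g)) ∧ y.width = 1 ∧
    1 ≤ g.width ∧ yw ≠ RF.nil ∧ (1 ≤ lw ∨ 2 ≤ yw.width))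

/-- S5: rooting at a bottom -/
def SBottom : Prop := ∀ (l : ℕ) (ch : RF), RValid l ch → ch ≠ RF.nil →
  ∃ (b m : ℕ) (c : RF), 1 ≤ b ∧ Eqv l ch b (RF.cons m c RF.nil)

/-- the hypotheses of the main recursion: some planted trees (forest `f`) and explicit vertices `E`
can be solved with labels from `R` -/
def Good (p : ℕ) (f : RF) (E : List (ℕ × ℕ)) (R : Finset ℕ) : Prop :=
  ∃ (F : LF) (W : Multiset ℕ) (As : List (Multiset ℕ)), F.shape = f ∧ Sol p F (p * f.width) W ∧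
    As.map Multiset.card = E.map Prod.fst ∧ F.labels + As.sum ≤ R.val ∧
    (W + (List.zipWith (fun (A : Multiset ℕ) (e : ℕ × ℕ) => A.sum + e.2) As E : List ℕ)).Nodup ∧
    ∀ w ∈ W + (List.zipWith (fun (A : Multiset ℕ) (e : ℕ × ℕ) => A.sum + e.2) As E : List ℕ), p < w

/-- the exceptional tree: root with at least two children, all obese bottoms with `b` leaves -/
def O1 (t : RF) : Prop := ∃ (b : ℕ) (ch : RF), 3 ≤ b ∧ t = RF.cons 0 ch RF.nil ∧
  ∀ l c, RF.Top ch l c → l = b ∧ c = RF.nil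

/-- C1: clusters at hubs, with any certified label above -/
def HubClaim : Prop := ∀ (p s l : ℕ) (R : Finset ℕ) (ch : RF), R ⊆ Finset.Icc 1 p →
  p + 1 ≤ s + R.card → (RF.cons l ch RF.nil).Valid → 2 ≤ ch.width →
  (RF.cons l ch RF.nil).leaves ≤ R.card → (RF.cons l ch RF.nil).size + s ≤ p + 1 →
  CluI p s R 0 (RF.cons l ch RF.nil) ∨
    (CluI p s R 1 (RF.cons l ch RF.nil) ∧ NoLeg ch ∧
      ∃ b, 3 ≤ b ∧ ∀ l' c, RF.Top ch l' c → l' = b ∧ c = RF.nil)

/-- C2: clusters at zero roots -/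
def ZeroClaim : Prop := ∀ (p s : ℕ) (R : Finset ℕ) (ch : RF), R ⊆ Finset.Icc 1 p →
  p + 1 ≤ s + R.card → (RF.cons 0 ch RF.nil).Valid → ch.width = 1 → ¬ Legc ch →
  (RF.cons 0 ch RF.nil).leaves ≤ R.card → (RF.cons 0 ch RF.nil).size + s ≤ p + 1 →
  Clu p s R 0 (RF.cons 0 ch RF.nil)

/-- C3: the main recursion -/
def MainRec : Prop := ∀ (p : ℕ) (f : RF) (E : List (ℕ × ℕ)) (R : Finset ℕ), R ⊆ Finset.Icc 1 p →
  f.Valid → NoLeg f → (∀ e ∈ E, 1 ≤ e.1 ∧ p ≤ e.2) →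
  f.leaves + (E.map Prod.fst).sum ≤ R.card → f.size + E.length ≤ R.card → Good p f E R

/-- C4: the lower bound -/
def Lower : Prop := ∀ (p l : ℕ) (ch : RF), 3 ≤ p → RValid l ch → l + ch.leaves = p →
  1 + ch.size ≤ p + 1 → Solved p l ch

end Irr87
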