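import Pool.Agent.Helper87.Irr.Claims

namespace Irr87

open Irr37

/-- a chosen child in front -/
theorem pick_child {ch : RF} {lc : ℕ} {cc : RF} (ht : RF.Top ch lc cc) :
    ∃ rest, RF.Perm ch (RF.cons lc cc rest) ∧ ch.width = 1 + rest.width ∧
      ch.size = 1 + cc.size + rest.size ∧ ch.leaves = lc + cc.leaves + rest.leaves ∧
      (ch.Valid → (cc = RF.nil → 1 ≤ lc) ∧ cc.Valid ∧ rest.Valid) ∧
      (NoLeg ch → (lc = 0 → ¬ Legc cc) ∧ NoLeg rest) := by
  obtain ⟨rest, hr⟩ := ht.perm
  refine ⟨rest, hr, hr.width_eq, hr.size_eq, hr.leaves_eq, fun hv => hr.valid hv, fun hn => ?_⟩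
  exact noLeg_cons.1 ((DPerm.of_perm hr).noLeg hn)

/-- building the numerical data for a cluster at a vertex with children `f'` -/
theorem mkNums {R : Finset ℕ} {d l : ℕ} {ch f' r : RF} {res : Finset ℕ} (h1 : DPerm ch f')
    (h2 : res ⊆ R) (h3 : res.card + r.size ≤ 1 + ch.size + d) (h4 : r.size ≤ ch.size)
    (h5 : res.card + r.leaves ≤ l + ch.leaves) (h6 : r.Valid) (h7 : NoLeg r) :
    Nums R d (RF.cons l ch RF.nil) (RF.cons l f' RF.nil) r res := by
  refine ⟨DPerm.cons l h1 DPerm.nil, h2, ?_, ?_, ?_, h6, h7⟩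
  · simp only [RF.size]; omega
  · simp only [RF.size]; omega
  · simp only [RF.leaves]; omega

/-- a forest of nonempty bottoms -/
theorem size_le_leaves_of_bots {f : RF} (h : ∀ l c, RF.Top f l c → 1 ≤ l ∧ c = RF.nil) :
    f.size ≤ f.leaves := by
  induction f with
  | nil => simp [RF.size]
  | cons l c s _ ih =>
    have h1 := h l c (RF.Top.here _ _ _)
    have h2 := ih fun l' c' ht => h l' c' (RF.Top.right _ _ ht)
    obtain ⟨h3, rfl⟩ := h1
    simp only [RF.size, RF.leaves]
    omega

/-- clusters at hubs, with any certified label above -/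
def HubClaim' : Prop := ∀ (p s l : ℕ) (R : Finset ℕ) (ch : RF), R ⊆ Finset.Icc 1 p →
  p + 1 ≤ s + R.card → (RF.cons l ch RF.nil).Valid → 2 ≤ ch.width →
  (RF.cons l ch RF.nil).leaves ≤ R.card → (RF.cons l ch RF.nil).size + s ≤ p + 1 →
  CluI p s R 0 (RF.cons l ch RF.nil) ∨
    ((∃ t' r res, Nums R 1 (RF.cons l ch RF.nil) t' r res ∧
        (∀ z < p, Solves p s z t' r res.val) ∧ r.size ≤ r.leaves) ∧ NoLeg ch ∧
      ∃ b, 3 ≤ b ∧ ∀ l' c, RF.Top ch l' c → l' = b ∧ c = RF.nil)

section
variable (hTRun : TRun) (hTBot : TBot) (hTLight : TLight) (hTThrough : TThrough)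
  (hTPath : TPath) (hTTriple : TTriple) (hLab : LabMain) (hTStar : TStar) (hTStarL : TStarL)
  (hS1 : Split1) (hS2 : Split2) (hS3 : Split3) (hS3e : Split3e) (hSLegs : SLegs) (hSZero : SZero)

include hLab hTStar hTStarL in
/-- stars in both regimes -/
theorem starRes_main {p s n₀ l : ℕ} {R : Finset ℕ} {ls : List (ℕ × ℕ)} {g : RF}
    (hR : R ⊆ Finset.Icc 1 p) (hs : p + 1 ≤ s + R.card) (h : StarSit p s R true n₀ l ls g) :
    StarRes p s R true n₀ l ls g := by
  rcases Nat.lt_or_ge (2 * s + 1) p with hsm | hlg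
  · exact hTStar p s R true n₀ l ls g (hLab p s R hR hs (by omega)) hR h
  · refine ⟨ls, ls, ∅, List.Perm.refl _, List.Sublist.refl _, Finset.empty_subset _, ?_, ?_, ?_, ?_⟩
    · rw [Finset.card_empty]; omega
    · rw [Finset.card_empty]; omega
    · intro _
      rw [Finset.card_empty]
      have : ls.length ≤ (ls.map Prod.fst).sum + ls.length := by omega
      omega
    · intro z hz
      exact hTStarL p s z R n₀ l ls g hlg h hz

include hTTriple in
theorem cluI_triple {p s l l₁ l₂ k d : ℕ} {R : Finset ℕ} {ch y₁ y₂ g : RF}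
    (hd : DPerm ch (RF.cons l₁ y₁ (RF.cons l₂ y₂ g))) (h1 : Small y₁) (h2 : Small y₂)
    (hv1 : y₁.Valid) (hv2 : y₂.Valid) (hvg : g.Valid) (hn1 : NoLeg y₁) (hn2 : NoLeg y₂)
    (hng : NoLeg g) (hk : k ≤ 3 + d) (hkl : k ≤ l₁ + l₂)
    (hS : SplitOK p s R k l l₁ l₂ (p * y₁.width) (p * y₂.width)) :
    CluI p s R d (RF.cons l ch RF.nil) := by
  obtain ⟨res, hr, hc, hsol⟩ := hTTriple p s l l₁ l₂ k R y₁ y₂ g h1 h2 hS
  have hsz := hd.size_eq
  have hlv := hd.leaves_eq
  simp only [RF.size] at hsz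
  simp only [RF.leaves] at hlv
  refine ⟨_, app y₁ (app y₂ g), res, mkNums hd hr ?_ ?_ ?_ ?_ ?_, hsol⟩
  · simp only [app_size]; omega
  · simp only [app_size]; omega
  · simp only [app_leaves]; omega
  · simp only [app_valid]; exact ⟨hv1, hv2, hvg⟩
  · exact noLeg_app.2 ⟨hn1, noLeg_app.2 ⟨hn2, hng⟩⟩

include hTRun hTBot hTLight hTThrough hTPath hTTriple hLab hTStar hTStarL hS1 hS2 hS3 hS3e hSLegs
  hSZero in
theorem hubClaim : HubClaim' := by
  intro p s l R ch hR hs hv hw hleaves hsize
  -- induction on the size of `ch`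
  induction hN : ch.size using Nat.strong_induction_on generalizing l ch with
  | _ N IH =>
  subst hN
  simp only [RF.Valid] at hv
  obtain ⟨-, hvc, -⟩ := hv
  simp only [RF.leaves] at hleaves
  simp only [RF.size] at hsize
  obtain ⟨ls, g, hperm, hng, hpos⟩ := hSLegs ch hvc
  have hpw := hperm.width_eq
  have hps := hperm.size_eq
  have hpl := hperm.leaves_eq
  have hpv := hperm.valid hvc
  rw [app_width, legsF_width] at hpw
  rw [app_size, legsF_size] at hps
  rw [app_leaves, legsF_leaves] at hpl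
  by_cases hls : ls = []
  swap
  · left
    refine cluI_of_starRes hperm hng hvc hpos (starRes_main hLab hTStar hTStarL hR hs ?_)
    refine ⟨by simp, hpos, Or.inl hls, ?_, ?_, ?_⟩
    · simp only [if_true]; omega
    · omega
    · omega
  subst hls
  have hNL : NoLeg ch := by
    have h1 := (DPerm.of_perm hperm).symm.noLeg (f := app (legsF []) g) (by simpa using hng)
    exact h1
  clear hperm hng hpos hpw hps hpl hpv g
  have hRc : 1 ≤ R.card ∨ l + ch.leaves = 0 := by omega
  -- zero child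
  by_cases hZ : ∃ cc, RF.Top ch 0 cc ∧ cc.width = 1
  · left
    obtain ⟨cc, ht, hcw⟩ := hZ
    obtain ⟨rest, hp, e1, e2, e3, e4, e5⟩ := pick_child ht
    obtain ⟨hv1, hv2, hv3⟩ := e4 hvc
    obtain ⟨hn1, hn2⟩ := e5 hNL
    obtain ⟨n, ly, cy, h1, h2, h3⟩ := hSZero (RF.cons 0 cc RF.nil)
      ⟨fun h => by rw [h] at hcw; simp [RF.width] at hcw, hv2, trivial⟩ rfl
    have hnl : ¬ Legc (RF.cons 0 cc RF.nil) := by
      intro h
      cases h with
      | bot => simp [RF.width] at hcw
      | zero h => exact hn1 rfl h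
    have hcy := h3 hnl
    have hn : 1 ≤ n := by
      rcases Nat.eq_zero_or_pos n with rfl | hn
      · simp only [zrun, RF.cons.injEq] at h1
        obtain ⟨rfl, rfl, -⟩ := h1
        omega
      · exact hn
    have hd : DPerm ch (app (zrun n (RF.cons ly cy RF.nil)) rest) := by
      rw [← h1]
      exact DPerm.of_perm hp
    have hsz := hd.size_eq
    have hlv := hd.leaves_eq
    have hva := hd.valid hvc
    simp only [app_size, zrun_size, RF.size] at hsz
    simp only [app_leaves, zrun_leaves, RF.leaves] at hlv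
    rw [app_valid, zrun_valid _ _ (by simp [RF.width])] at hva
    refine ⟨_, app (RF.cons ly cy RF.nil) rest, ∅, mkNums hd (Finset.empty_subset _) ?_ ?_ ?_ ?_ ?_,
      fun z hz => ?_⟩
    · simp only [Finset.card_empty, app_size, RF.size]; omega
    · simp only [app_size, RF.size]; omega
    · simp only [Finset.card_empty, app_leaves, RF.leaves]; omega
    · rw [app_valid]; exact hva
    · refine noLeg_app.2 ⟨noLeg_cons.2 ⟨?_, noLeg_nil⟩, hn2⟩
      intro hly hl
      rcases h2 with h2 | h2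
      · omega
      · exact not_legc_of_width h2 hl
    · exact hTRun p s z l n (RF.cons ly cy RF.nil) rest hz hn rfl (by omega)
  -- thin or fat child
  by_cases hB : ∃ b, (b = 1 ∨ b = 2) ∧ RF.Top ch b RF.nil
  · left
    obtain ⟨b, hb, ht⟩ := hB
    obtain ⟨rest, hp, e1, e2, e3, e4, e5⟩ := pick_child ht
    obtain ⟨hv1, hv2, hv3⟩ := e4 hvc
    obtain ⟨hn1, hn2⟩ := e5 hNL
    simp only [RF.size] at e2
    simp only [RF.leaves] at e3
    have hX : ∃ X ⊆ R, X.card = b ∧ p ≤ X.sum id + s ∧ X.sum id ≤ p + s := by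
      obtain ⟨M, hM, hM1, hM2, hM3⟩ := exists_max_label hR (by omega)
      rcases hb with rfl | rfl
      · refine ⟨{M}, by simpa using hM, by simp, ?_, ?_⟩
        · simp; omega
        · simp; omega
      · obtain ⟨m, hm, hm1, hm2, hm3⟩ := exists_min_label hR (by omega)
        have hne : M ≠ m := by
          rintro rfl
          have h1 : R ⊆ {M} := by
            intro a ha
            rw [Finset.mem_singleton]
            exact le_antisymm (hM3 a ha) (hm3 a ha)
          have h2 := Finset.card_le_card h1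
          rw [Finset.card_singleton] at h2
          omega
        refine ⟨{M, m}, ?_, Finset.card_pair hne, ?_, ?_⟩
        · intro a ha
          simp only [Finset.mem_insert, Finset.mem_singleton] at ha
          rcases ha with rfl | rfl
          · exact hM
          · exact hm
        · rw [Finset.sum_pair hne]; simp only [id]; omega
        · rw [Finset.sum_pair hne]; simp only [id]; omega
    obtain ⟨X, hX1, hX2, hX3, hX4⟩ := hX
    refine ⟨_, rest, X, mkNums (DPerm.of_perm hp) hX1 ?_ ?_ ?_ hv3 hn2, fun z hz => ?_⟩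
    · omega
    · omega
    · omega
    · have hc : Multiset.card X.val = b := hX2
      have := hTBot p s z l X.val rest hz (by omega) (by
        intro h0
        rw [h0] at hc
        simp at hc
        omega) (by rw [← sum_id_val]; exact hX3) (by rw [← sum_id_val]; exact hX4)
      rwa [hc] at this
  -- vertex of F-degree two with a leg
  by_cases hCL : ∃ lc t, 1 ≤ lc ∧ Legc t ∧ RF.Top ch lc (RF.cons 0 t RF.nil)
  · left
    obtain ⟨lc, t, hlc, hleg, ht⟩ := hCL
    obtain ⟨n, b, rfl⟩ := legc_iff.1 hleg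
    obtain ⟨rest, hp, e1, e2, e3, e4, e5⟩ := pick_child ht
    obtain ⟨hv1, hv2, hv3⟩ := e4 hvc
    obtain ⟨hn1, hn2⟩ := e5 hNL
    obtain ⟨M, hM, hM1, hM2, -⟩ := exists_max_label hR (by omega)
    have hb : 1 ≤ b := by
      have h1 := hv2.2.1
      rw [zrun_valid _ _ (le_of_eq (bot_width _).symm), bot_valid] at h1
      exact h1
    simp only [RF.size, zrun_size, bot_size] at e2
    simp only [RF.leaves, zrun_leaves, bot_leaves] at e3
    refine ⟨_, app (bot b) rest, {M}, mkNums (DPerm.of_perm hp) (by simpa using hM) ?_ ?_ ?_ ?_ ?_,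
      fun z hz => ?_⟩
    · rw [Finset.card_singleton, app_size, bot_size]; omega
    · rw [app_size, bot_size]; omega
    · rw [Finset.card_singleton, app_leaves, bot_leaves]; omega
    · rw [app_valid, bot_valid]; exact ⟨hb, hv3⟩
    · refine noLeg_app.2 ⟨noLeg_cons.2 ⟨?_, noLeg_nil⟩, hn2⟩
      intro h; omega
    · exact hTThrough p s z l lc (n + 1) M (bot b) rest hz (by omega) hlc (by omega) rfl (by omega)
  -- light vertex
  by_cases hLt : ∃ cc, cc.width = 1 ∧ RF.Top ch 1 cc
  · left
    obtain ⟨cc, hcw, ht⟩ := hLt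
    obtain ⟨rest, hp, e1, e2, e3, e4, e5⟩ := pick_child ht
    obtain ⟨hv1, hv2, hv3⟩ := e4 hvc
    obtain ⟨hn1, hn2⟩ := e5 hNL
    obtain ⟨m, hm, hm1, hm2, hm3⟩ := exists_min_label hR (by omega)
    refine ⟨_, app cc rest, {m}, mkNums (DPerm.of_perm hp) (by simpa using hm) ?_ ?_ ?_ ?_ ?_,
      fun z hz => ?_⟩
    · rw [Finset.card_singleton, app_size]; omega
    · rw [app_size]; omega
    · rw [Finset.card_singleton, app_leaves]; omega
    · rw [app_valid]; exact ⟨hv2, hv3⟩
    · refine noLeg_app.2 ⟨noLeg_of_single hcw ?_, hn2⟩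
      rintro t rfl hl
      exact hCL ⟨1, t, le_refl _, hl, ht⟩
    · exact hTLight p s z l m cc rest hz hm2 (by omega) hcw (by omega)
  -- hub child
  by_cases hH : ∃ lc cc, 2 ≤ cc.width ∧ RF.Top ch lc cc
  · left
    obtain ⟨lc, cc, hcw, ht⟩ := hH
    obtain ⟨rest, hp, e1, e2, e3, e4, e5⟩ := pick_child ht
    obtain ⟨hv1, hv2, hv3⟩ := e4 hvc
    obtain ⟨hn1, hn2⟩ := e5 hNL
    have hIH := IH cc.size (by omega) lc cc ⟨fun h => by rw [h] at hcw; simp [RF.width] at hcw,
      hv2, trivial⟩ hcw (by simp only [RF.leaves]; omega) (by simp only [RF.size]; omega) rfl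
    have hIH' : CluI p s R 1 (RF.cons lc cc RF.nil) := by
      rcases hIH with hIH | hIH
      · obtain ⟨t', r, res, hN, hsol⟩ := hIH
        exact ⟨t', r, res, ⟨hN.dperm, hN.sub, by have := hN.size; omega, hN.lt, hN.leaves,
          hN.valid, hN.noleg⟩, hsol⟩
      · obtain ⟨⟨t', r, res, h1, h2, _⟩, _⟩ := hIH
        exact ⟨t', r, res, h1, h2⟩
    obtain ⟨t', r, res, hN, hsol⟩ := hIH'
    have hN2 := hN.dperm.size_eq
    have hN3 := hN.dperm.leaves_eq
    have hN4 := hN.dperm.width_eq
    have hN5 := hN.size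
    have hN6 := hN.lt
    have hN7 := hN.leaves
    simp only [RF.size] at hN2 hN5 hN6
    simp only [RF.leaves] at hN3 hN7
    simp only [RF.width] at hN4
    have hd : DPerm ch (app t' rest) := by
      have h1 : DPerm (RF.cons lc cc rest) (app (RF.cons lc cc RF.nil) rest) := DPerm.refl _
      exact (DPerm.of_perm hp).trans (h1.trans (DPerm.app hN.dperm (DPerm.refl _)))
    refine ⟨_, app r rest, res, mkNums hd hN.sub ?_ ?_ ?_ ?_ ?_, ?_⟩
    · rw [app_size]; omega
    · rw [app_size]; omega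
    · rw [app_leaves]; omega
    · rw [app_valid]; exact ⟨hN.valid, hv3⟩
    · exact noLeg_app.2 ⟨hN.noleg, hn2⟩
    · refine hTPath p s l t' r rest res.val (by omega) (by omega) ?_ (by omega) hsol
      have : Multiset.card res.val = res.card := rfl
      omega
  -- now every child is heavy (without leg) or obese
  have hclass : ∀ lc cc, RF.Top ch lc cc → (2 ≤ lc ∧ cc.width = 1 ∧ NoLeg cc) ∨
      (3 ≤ lc ∧ cc = RF.nil) := by
    intro lc cc ht
    have hval : (cc = RF.nil → 1 ≤ lc) := by
      obtain ⟨rest, hp, e1, e2, e3, e4, e5⟩ := pick_child ht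
      exact (e4 hvc).1
    rcases Nat.lt_or_ge cc.width 2 with h1 | h1
    swap
    · exact absurd ⟨lc, cc, h1, ht⟩ hH
    rcases Nat.eq_zero_or_pos cc.width with h2 | h2
    · right
      have h3 := width_zero h2
      refine ⟨?_, h3⟩
      have h4 := hval h3
      subst h3
      by_contra h5
      exact hB ⟨lc, by omega, ht⟩
    · left
      have h3 : cc.width = 1 := by omega
      refine ⟨?_, h3, ?_⟩
      · by_contra h4
        have h5 : lc = 0 ∨ lc = 1 := by omega
        rcases h5 with rfl | rfl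
        · exact hZ ⟨cc, ht, h3⟩
        · exact hLt ⟨cc, h3, ht⟩
      · refine noLeg_of_single h3 ?_
        rintro t rfl hl
        rcases Nat.eq_zero_or_pos lc with rfl | h4
        · exact hZ ⟨_, ht, h3⟩
        · exact hCL ⟨lc, t, h4, hl, ht⟩
  have hsm : ∀ {y : RF}, y.width = 1 → Small y := fun h => Or.inr h
  by_cases hHv : ∃ lc cc, cc.width = 1 ∧ RF.Top ch lc cc
  · left
    obtain ⟨l1, y1, hy1, ht⟩ := hHv
    obtain ⟨rest, hp, e1, e2, e3, e4, e5⟩ := pick_child ht
    obtain ⟨hv1, hv2, hv3⟩ := e4 hvc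
    obtain ⟨hn1, hn2⟩ := e5 hNL
    have hc1 := hclass l1 y1 ht
    have hc1' : 2 ≤ l1 ∧ NoLeg y1 := by
      rcases hc1 with h | h
      · exact ⟨h.1, h.2.2⟩
      · rw [h.2] at hy1; simp [RF.width] at hy1
    have htr : ∀ lc cc, RF.Top rest lc cc → RF.Top ch lc cc := fun lc cc h =>
      hp.symm.top (RF.Top.right _ _ h)
    by_cases hHv2 : ∃ lc cc, cc.width = 1 ∧ RF.Top rest lc cc
    · obtain ⟨l2, y2, hy2, ht2⟩ := hHv2
      obtain ⟨rest2, hp2, f1, f2, f3, f4, f5⟩ := pick_child ht2
      obtain ⟨hw1, hw2, hw3⟩ := f4 hv3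
      obtain ⟨hm1, hm2⟩ := f5 hn2
      have hc2 : 2 ≤ l2 ∧ NoLeg y2 := by
        rcases hclass l2 y2 (htr _ _ ht2) with h | h
        · exact ⟨h.1, h.2.2⟩
        · rw [h.2] at hy2; simp [RF.width] at hy2
      have hd : DPerm ch (RF.cons l1 y1 (RF.cons l2 y2 rest2)) :=
        (DPerm.of_perm hp).trans (DPerm.cons l1 (DPerm.refl _) (DPerm.of_perm hp2))
      refine cluI_triple hTTriple hd (hsm hy1) (hsm hy2) hv2 hw2 hw3 hc1'.2 hc2.2 hm2
        (k := 2) (by omega) (by omega) ?_
      rw [hy1, hy2, Nat.mul_one]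
      exact hS1 p s R l l1 l2 hR hs (by omega) hc1'.1 hc2.1
    · -- an obese one in the rest
      have hrest : rest ≠ RF.nil := by
        rintro rfl
        simp only [RF.width] at e1
        omega
      cases rest with
      | nil => exact absurd rfl hrest
      | cons l2 y2 rest2 =>
        have ht2 : RF.Top (RF.cons l2 y2 rest2) l2 y2 := RF.Top.here _ _ _
        have hc2 : 3 ≤ l2 ∧ y2 = RF.nil := by
          rcases hclass l2 y2 (htr _ _ ht2) with h | h
          · exact absurd ⟨l2, y2, h.2.1, ht2⟩ hHv2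
          · exact h
        obtain ⟨hc3, rfl⟩ := hc2
        simp only [RF.size] at e2
        simp only [RF.leaves] at e3
        obtain ⟨hw1, hw2, hw3⟩ := hv3
        have hm2 := (noLeg_cons.1 hn2).2
        refine cluI_triple hTTriple (DPerm.of_perm hp) (hsm hy1) (Or.inl rfl) hv2 trivial hw3
          hc1'.2 noLeg_nil hm2 (k := 3) (by omega) (by omega) ?_
        rw [hy1, Nat.mul_one]
        simp only [RF.width, Nat.mul_zero]
        exact hS2 p s R l l1 l2 hR hs (by omega) hc1'.1 hc3
  -- all children obese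
  have hob : ∀ lc cc, RF.Top ch lc cc → 3 ≤ lc ∧ cc = RF.nil := by
    intro lc cc ht
    rcases hclass lc cc ht with h | h
    · exact absurd ⟨lc, cc, h.2.1, ht⟩ hHv
    · exact h
  obtain ⟨l1, ht1⟩ : ∃ l1, RF.Top ch l1 RF.nil := by
    cases ch with
    | nil => simp [RF.width] at hw
    | cons a b c =>
      have h1 := RF.Top.here a b c
      obtain ⟨h2, rfl⟩ := hob a b h1
      exact ⟨a, h1⟩
  obtain ⟨rest, hp, e1, e2, e3, e4, e5⟩ := pick_child ht1
  obtain ⟨hv1, hv2, hv3⟩ := e4 hvc
  obtain ⟨hn1, hn2⟩ := e5 hNL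
  simp only [RF.size] at e2
  simp only [RF.leaves] at e3
  have hl1 := (hob l1 RF.nil ht1).1
  have htr : ∀ lc cc, RF.Top rest lc cc → RF.Top ch lc cc := fun lc cc h =>
    hp.symm.top (RF.Top.right _ _ h)
  by_cases hne : ∃ l2 c2, RF.Top rest l2 c2 ∧ l2 ≠ l1
  · left
    obtain ⟨l2, c2, ht2, hne2⟩ := hne
    obtain ⟨hl2, rfl⟩ := hob l2 c2 (htr _ _ ht2)
    obtain ⟨rest2, hp2, f1, f2, f3, f4, f5⟩ := pick_child ht2
    obtain ⟨hw1, hw2, hw3⟩ := f4 hv3
    obtain ⟨hm1, hm2⟩ := f5 hn2
    simp only [RF.size] at f2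
    simp only [RF.leaves] at f3
    have hd : DPerm ch (RF.cons l1 RF.nil (RF.cons l2 RF.nil rest2)) :=
      (DPerm.of_perm hp).trans (DPerm.cons l1 (DPerm.refl _) (DPerm.of_perm hp2))
    rcases Nat.lt_or_ge l1 l2 with h12 | h12
    · refine cluI_triple hTTriple hd (Or.inl rfl) (Or.inl rfl) trivial trivial hw3
        noLeg_nil noLeg_nil hm2 (k := 3) (by omega) (by omega) ?_
      simp only [RF.width, Nat.mul_zero]
      exact hS3 p s R l l1 l2 hR hs (by omega) (by omega) h12
    · have hd' : DPerm ch (RF.cons l2 RF.nil (RF.cons l1 RF.nil rest2)) :=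
        hd.trans (DPerm.swap _ _ _ _ _)
      refine cluI_triple hTTriple hd' (Or.inl rfl) (Or.inl rfl) trivial trivial hw3
        noLeg_nil noLeg_nil hm2 (k := 3) (by omega) (by omega) ?_
      simp only [RF.width, Nat.mul_zero]
      exact hS3 p s R l l2 l1 hR hs (by omega) (by omega) (by omega)
  · -- all equal
    right
    have hrest : rest ≠ RF.nil := by
      rintro rfl
      simp only [RF.width] at e1
      omega
    cases rest with
    | nil => exact absurd rfl hrest
    | cons l2 y2 rest2 =>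
      have ht2 : RF.Top (RF.cons l2 y2 rest2) l2 y2 := RF.Top.here _ _ _
      obtain ⟨hl2, rfl⟩ := hob l2 y2 (htr _ _ ht2)
      have hl12 : l2 = l1 := by
        by_contra h
        exact hne ⟨l2, RF.nil, ht2, h⟩
      subst hl12
      simp only [RF.size] at e2
      simp only [RF.leaves] at e3
      obtain ⟨hw1, hw2, hw3⟩ := hv3
      have hm2 := (noLeg_cons.1 hn2).2
      refine ⟨?_, hNL, l2, hl2, ?_⟩
      · have hS := hS3e p s R l l2 hR hs (by omega) (by omega)
        have hS' : SplitOK p s R 4 l l2 l2 (p * RF.nil.width) (p * RF.nil.width) := by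
          simpa [RF.width] using hS
        obtain ⟨res, hr, hc, hsol⟩ := hTTriple p s l l2 l2 4 R RF.nil RF.nil rest2 (Or.inl rfl)
          (Or.inl rfl) hS'
        refine ⟨_, app RF.nil (app RF.nil rest2), res,
          mkNums (DPerm.of_perm hp) hr ?_ ?_ ?_ ?_ ?_, hsol, ?_⟩
        · simp only [nil_app]; omega
        · simp only [nil_app]; omega
        · simp only [nil_app]; omega
        · simpa using hw3
        · simpa using hm2
        · simp only [nil_app]
          refine size_le_leaves_of_bots fun lc cc ht => ?_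
          obtain ⟨h1, h2⟩ := hob lc cc (htr _ _ (RF.Top.right _ _ ht))
          exact ⟨by omega, h2⟩
      · intro lc cc ht
        obtain ⟨h1, h2⟩ := hob lc cc ht
        refine ⟨?_, h2⟩
        have h3 := hp.top ht
        cases h3 with
        | here => rfl
        | right _ _ h3 =>
          by_contra h
          exact hne ⟨lc, cc, h3, h⟩

end

end Irr87
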