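import Pool.Agent.Helper87.Irr.Hub

namespace Irr87

open Irr37

/-- the weights of the explicit vertices -/
def zipw (As : List (Multiset ℕ)) (E : List (ℕ × ℕ)) : Multiset ℕ :=
  (List.zipWith (fun (A : Multiset ℕ) (e : ℕ × ℕ) => A.sum + e.2) As E : List ℕ)

theorem good_iff {p : ℕ} {f : RF} {E : List (ℕ × ℕ)} {R : Finset ℕ} :
    Good p f E R ↔ ∃ (F : LF) (W : Multiset ℕ) (As : List (Multiset ℕ)), F.shape = f ∧
      Sol p F (p * f.width) W ∧ As.map Multiset.card = E.map Prod.fst ∧
      F.labels + As.sum ≤ R.val ∧ (W + zipw As E).Nodup ∧ ∀ w ∈ W + zipw As E, p < w := Iff.rfl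

theorem zipw_cons (A : Multiset ℕ) (As : List (Multiset ℕ)) (e : ℕ × ℕ) (E : List (ℕ × ℕ)) :
    zipw (A :: As) (e :: E) = (A.sum + e.2) ::ₘ zipw As E := rfl

theorem card_zipw {As : List (Multiset ℕ)} {E : List (ℕ × ℕ)}
    (h : As.map Multiset.card = E.map Prod.fst) : Multiset.card (zipw As E) = E.length := by
  have h1 := congrArg List.length h
  simp only [List.length_map] at h1
  simp [zipw, h1]

theorem exists_sub_card {M : Multiset ℕ} {n : ℕ} (h : n ≤ Multiset.card M) :
    ∃ t ≤ M, Multiset.card t = n := by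
  induction M using Quotient.inductionOn with
  | _ l =>
    refine ⟨(l.take n : List ℕ), ?_, ?_⟩
    · exact Multiset.coe_le.2 (List.take_sublist n l).subperm
    · have h' : n ≤ l.length := h
      simp [h']

theorem sum_pos_of_mem {A : Multiset ℕ} (h : 1 ≤ Multiset.card A) (h1 : ∀ a ∈ A, 1 ≤ a) :
    1 ≤ A.sum := by
  have h2 := Multiset.card_nsmul_le_sum (s := A) (a := 1) (fun x hx => h1 x hx)
  simp only [smul_eq_mul, mul_one] at h2
  omega

theorem good_nil (hEP : EP) {p : ℕ} {E : List (ℕ × ℕ)} {R : Finset ℕ} (hR : R ⊆ Finset.Icc 1 p)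
    (hE : ∀ e ∈ E, 1 ≤ e.1 ∧ p ≤ e.2) (hl : (E.map Prod.fst).sum ≤ R.card) :
    Good p RF.nil E R := by
  obtain ⟨As, h1, h2, h3⟩ := hEP R E (fun e he => (hE e he).1) hl
  refine good_iff.2 ⟨LF.nil, 0, As, rfl, by simpa [RF.width] using Sol.nil, h1, ?_, ?_, ?_⟩
  · simpa [LF.labels] using h2
  · simpa [zipw] using h3
  · intro w hw
    rw [zero_add] at hw
    have h4 : ∀ A ∈ As, ∀ a ∈ A, 1 ≤ a := by
      intro A hA a ha
      have h5 : A ≤ As.sum := List.single_le_sum (fun _ _ => Multiset.zero_le _) _ hA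
      have h6 := Multiset.mem_of_le (h5.trans h2) ha
      exact (Finset.mem_Icc.1 (hR h6)).1
    clear h2 h3
    induction As generalizing E with
    | nil => simp [zipw] at hw
    | cons A As ih =>
      cases E with
      | nil => simp [zipw] at hw
      | cons e E =>
        simp only [List.map_cons, List.cons.injEq] at h1
        rw [zipw_cons] at hw
        rcases Multiset.mem_cons.1 hw with rfl | hw
        · have h5 := hE e List.mem_cons_self
          have h6 := sum_pos_of_mem (A := A) (by omega) (h4 A List.mem_cons_self)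
          omega
        · simp only [List.map_cons, List.sum_cons] at hl
          exact ih (fun e he => hE e (List.mem_cons_of_mem _ he)) (by omega) h1.2 hw
            (fun A hA => h4 A (List.mem_cons_of_mem _ hA))

theorem good_explicit {p l : ℕ} {ch sib : RF} {E : List (ℕ × ℕ)} {R : Finset ℕ} (hp : 1 ≤ p)
    (h : Good p (app ch sib) ((l, p * (1 + ch.width)) :: E) R) : Good p (RF.cons l ch sib) E R := by
  obtain ⟨F, W, As, h1, h2, h3, h4, h5, h6⟩ := good_iff.1 h
  obtain ⟨F1, F2, W1, W2, e1, e2, e3, e4, e5, e6⟩ := Sol_split_planted h1 h2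
  cases As with
  | nil => simp at h3
  | cons A As =>
    simp only [List.map_cons, List.cons.injEq] at h3
    have h7 := Sol.cons (A := A) hp (le_refl p) e5 e6
    have e7 : A.sum + p * ch.width + p = A.sum + p * (1 + ch.width) := by ring
    rw [zipw_cons] at h5 h6
    have e8 : (A.sum + p * ch.width + p) ::ₘ (W1 + W2) + zipw As E =
        W + (A.sum + p * (1 + ch.width)) ::ₘ zipw As E := by
      rw [e7, e4, Multiset.add_cons, Multiset.cons_add]
    refine good_iff.2 ⟨LF.cons A F1 F2, (A.sum + p * ch.width + p) ::ₘ (W1 + W2), As, ?_, ?_,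
      h3.2, ?_, ?_, ?_⟩
    · simp only [LF.shape, h3.1, e1, e2]
    · have e9 : p * (RF.cons l ch sib).width = p + p * sib.width := by
        simp only [RF.width]; ring
      rw [e9]
      exact h7
    · simp only [LF.labels]
      rw [e3, List.sum_cons] at h4
      have e10 : A + F1.labels + F2.labels + As.sum = F1.labels + F2.labels + (A + As.sum) := by
        abel
      rw [e10]
      exact h4
    · rw [e8]; exact h5
    · rw [e8]; exact h6

theorem good_dperm {p : ℕ} {f f' : RF} {E : List (ℕ × ℕ)} {R : Finset ℕ} (hd : DPerm f f')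
    (h : Good p f E R) : Good p f' E R := by
  obtain ⟨F, W, As, h1, h2, h3, h4, h5, h6⟩ := good_iff.1 h
  obtain ⟨F', k1, k2, k3⟩ := Sol_dperm hd F _ W h1 h2
  refine good_iff.2 ⟨F', W, As, k1, ?_, h3, ?_, h5, h6⟩
  · rw [← hd.width_eq]; exact k3
  · rw [k2]; exact h4

theorem good_cluster {p s d : ℕ} {t t' r sib : RF} {E : List (ℕ × ℕ)} {R res : Finset ℕ}
    (hp : 1 ≤ p) (ht : t.width = 1)
    (hR : R ⊆ Finset.Icc 1 p) (hN : Nums R d t t' r res) (hs : Solves p s 0 t' r res.val)
    (hsz : t.size + sib.size + E.length + s ≤ p + 1)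
    (hlv : t.leaves + sib.leaves + (E.map Prod.fst).sum ≤ R.card)
    (h : Good p (app r sib) E (R \ res)) : Good p (app t sib) E R := by
  classical
  obtain ⟨F, W, As, h1, h2, h3, h4, h5, h6⟩ := good_iff.1 h
  have hWc := (Sol_card h2).1
  rw [h1, app_size] at hWc
  have hZc := card_zipw h3
  have hFc : Multiset.card F.labels = (app r sib).leaves := by
    rw [← h1]
    clear * -
    induction F with
    | nil => rfl
    | cons A a b iha ihb => simp only [LF.labels, LF.shape, RF.leaves, Multiset.card_add, iha, ihb]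
  rw [app_leaves] at hFc
  have hAc : Multiset.card As.sum = (E.map Prod.fst).sum := by
    rw [← h3]
    clear * -
    induction As with
    | nil => rfl
    | cons A As ih => simp only [List.sum_cons, Multiset.card_add, List.map_cons, ih]
  have hd1 := hN.dperm.size_eq
  have hd2 := hN.dperm.leaves_eq
  have hn1 := hN.leaves
  have hn2 := hN.lt
  have hsub := hN.sub
  -- the weights
  set V : Finset ℕ := (W + zipw As E).toFinset with hV
  have hVc : V.card = Multiset.card (W + zipw As E) := by
    rw [hV, Multiset.toFinset_card_of_nodup h5]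
  rw [Multiset.card_add, hZc] at hVc
  -- fill
  have hRes : (R \ res).val = R.val - res.val := Finset.sdiff_val R res
  have hle : res.val ≤ R.val := Finset.val_le_iff.2 hsub
  have hcR : (R \ res).card = R.card - res.card := Finset.card_sdiff_of_subset hsub
  have hcle := Finset.card_le_card hsub
  obtain ⟨fill, hf1, hf2⟩ := exists_sub_card (M := (R \ res).val - (F.labels + As.sum))
    (n := t.leaves - r.leaves - res.card) (by
      rw [Multiset.card_sub h4, Multiset.card_add, hFc, hAc]
      have : Multiset.card (R \ res).val = (R \ res).card := rfl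
      omega)
  have hf3 : fill + (F.labels + As.sum) ≤ (R \ res).val :=
    (add_le_add_left hf1 _).trans (by rw [tsub_add_cancel_of_le h4])
  have hf4 : fill ≤ (R \ res).val := le_trans (Multiset.le_add_right _ _) hf3
  have hfb : ∀ a ∈ fill, 1 ≤ a ∧ a ≤ p := by
    intro a ha
    have := Multiset.mem_of_le hf4 ha
    exact Finset.mem_Icc.1 (hR (Finset.sdiff_subset this))
  have hRR : res.val + (R \ res).val = R.val := by
    rw [hRes]
    exact add_tsub_cancel_of_le hle
  have hnd : (res.val + fill).Nodup := by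
    refine Multiset.nodup_of_le ?_ R.nodup
    rw [← hRR]
    exact add_le_add_right hf4 _
  have hc : Multiset.card res.val = res.card := rfl
  obtain ⟨W', hW1, hW2, hW3⟩ := hs V fill (by intro y hy; omega) (by omega) (by omega) hfb hnd
  obtain ⟨F1, F2, Wa, Wb, e1, e2, e3, e4, e5, e6⟩ := Sol_split_planted h1 h2
  obtain ⟨G, g1, g2, g3⟩ := hW1.complete hp F1 Wa e1 e5
  obtain ⟨G', k1, k2, k3⟩ := Sol_dperm hN.dperm.symm G _ _ g1 g3
  have k4 := Sol_app k3 e6
  have e7 : W' + Wa + Wb + zipw As E = W' + (W + zipw As E) := by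
    rw [e4]; abel
  refine good_iff.2 ⟨lapp G' F2, W' + Wa + Wb, As, ?_, ?_, h3, ?_, ?_, ?_⟩
  · rw [lapp_shape, k1, e2]
  · rw [app_width, ht, Nat.mul_add, Nat.mul_one]
    simpa using k4
  · rw [lapp_labels, k2, g2]
    have e8 : res.val + fill + F1.labels + F2.labels + As.sum =
        res.val + (fill + (F.labels + As.sum)) := by
      rw [e3]; abel
    rw [e8, ← hRR]
    exact add_le_add_right hf3 _
  · rw [e7]
    refine Multiset.nodup_add.2 ⟨hW2, h5, ?_⟩
    rw [Multiset.disjoint_left]
    intro w hw hw'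
    exact (hW3 w hw).2 (Multiset.mem_toFinset.2 hw')
  · rw [e7]
    intro w hw
    rcases Multiset.mem_add.1 hw with hw | hw
    · exact (hW3 w hw).1
    · exact h6 w hw

end Irr87
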