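import Pool.Agent.Helper87.Irr.Main

namespace Irr87

open Irr37

theorem width_le_size (f : RF) : f.width ≤ f.size := by
  induction f with
  | nil => simp [RF.size, RF.width]
  | cons l c s _ ih => simp only [RF.size, RF.width]; omega

theorem DPerm.zrun {t t' : RF} (h : DPerm t t') (n : ℕ) :
    DPerm (Irr87.zrun n t) (Irr87.zrun n t') := by
  induction n with
  | zero => exact h
  | succ n ih => exact DPerm.cons 0 ih DPerm.nil

section
variable (hLab : LabMain) (hTStar : TStar) (hTStarL : TStarL) (hTC : TC) (hTCup : TCup)
  (hTCupLeg : TCupLeg) (hSLegs : SLegs) (hSZero : SZero) (hHub : HubClaim') (hEP : EP)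

include hLab hTStar hTStarL hTCup hTCupLeg hSLegs hSZero in
theorem zeroClaim : ZeroClaim := by
  intro p s R ch hR hs hv hw hnl hleaves hsize
  have hp : 1 ≤ p := by
    simp only [RF.size] at hsize
    have := width_le_size ch
    omega
  have hnl' : ¬ Legc (RF.cons 0 ch RF.nil) := by
    intro h
    cases h with
    | bot => simp [RF.width] at hw
    | zero h => exact hnl h
  obtain ⟨n, l, c, h1, h2, h3⟩ := hSZero (RF.cons 0 ch RF.nil) hv rfl
  have hc := h3 hnl'
  have hn : 1 ≤ n := by
    rcases Nat.eq_zero_or_pos n with rfl | hn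
    · simp only [zrun, RF.cons.injEq] at h1
      obtain ⟨rfl, rfl, -⟩ := h1
      omega
    · exact hn
  rw [h1] at hv hleaves hsize ⊢
  rw [zrun_valid _ _ (by simp [RF.width])] at hv
  obtain ⟨-, hvc, -⟩ := hv
  simp only [zrun_leaves, RF.leaves] at hleaves
  simp only [zrun_size, RF.size] at hsize
  rcases Nat.lt_or_ge c.width 2 with hcw | hcw
  · -- vertex of F-degree two
    have hcw1 : c.width = 1 := by
      rcases Nat.eq_zero_or_pos c.width with h | h
      · exact absurd (width_zero h) hc
      · omega
    have hl : 1 ≤ l := by omega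
    by_cases hleg : ∃ t, c = RF.cons 0 t RF.nil ∧ Legc t
    · obtain ⟨t, rfl, ht⟩ := hleg
      obtain ⟨r, b, rfl⟩ := legc_iff.1 ht
      have hb : 1 ≤ b := by
        have h1 := hvc.2.1
        rw [zrun_valid _ _ (le_of_eq (bot_width _).symm), bot_valid] at h1
        exact h1
      simp only [RF.leaves, zrun_leaves, bot_leaves] at hleaves
      simp only [RF.size, zrun_size, bot_size] at hsize
      obtain ⟨r', res, k1, k2, k3, k4, k5⟩ := hTCupLeg p s l n (r + 1) b R hR hs hn hl (by omega) hb
        (by omega) (by omega)
      refine ⟨_, r', res, ⟨DPerm.refl _, k2, ?_, ?_, ?_, ?_, ?_⟩, k5⟩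
      · simp only [zrun_size, RF.size, bot_size]
        omega
      · simp only [zrun_size, RF.size, bot_size]
        rcases k1 with rfl | rfl
        · rw [bot_size]; omega
        · simp only [RF.size]; omega
      · simp only [zrun_leaves, RF.leaves, bot_leaves]
        omega
      · rcases k1 with rfl | rfl
        · exact (bot_valid b).2 hb
        · trivial
      · rcases k1 with rfl | rfl
        · exact noLeg_cons.2 ⟨fun h => by omega, noLeg_nil⟩
        · exact noLeg_nil
    · obtain ⟨M, hM, hM1, hM2, -⟩ := exists_max_label hR (by omega)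
      refine ⟨_, c, {M}, ⟨DPerm.refl _, by simpa using hM, ?_, ?_, ?_, hvc, ?_⟩,
        hTCup p s l n M c hp hn hl (by omega) hcw1⟩
      · simp only [Finset.card_singleton, zrun_size, RF.size]; omega
      · simp only [zrun_size, RF.size]; omega
      · simp only [Finset.card_singleton, zrun_leaves, RF.leaves]; omega
      · refine noLeg_of_single hcw1 fun t ht hl' => hleg ⟨t, ht, hl'⟩
  · -- hub
    obtain ⟨ls, g, hperm, hng, hpos⟩ := hSLegs c hvc
    have hpw := hperm.width_eq
    have hps := hperm.size_eq
    have hpl := hperm.leaves_eq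
    have hpv := hperm.valid hvc
    rw [app_width, legsF_width] at hpw
    rw [app_size, legsF_size] at hps
    rw [app_leaves, legsF_leaves] at hpl
    rw [app_valid] at hpv
    have hsr := starRes_main hLab hTStar hTStarL (n₀ := n) (l := l) (ls := ls) (g := g) hR hs
      ⟨by simp, hpos, Or.inr hn, by simp only [if_true]; omega, by omega, by omega⟩
    obtain ⟨ls', ls'', res, k1, k2, k3, k4, k5, -, k6⟩ := hsr
    have hperm2 : ∀ {a b : List (ℕ × ℕ)}, a.Perm b →
        ∀ k, DPerm (app (legsF a) k) (app (legsF b) k) := by
      intro a b hab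
      induction hab with
      | nil => exact fun k => DPerm.refl _
      | cons x _ ih =>
        intro k
        rw [legsF_cons, legsF_cons, app_assoc, app_assoc]
        exact DPerm.app (DPerm.refl _) (ih k)
      | swap x y a =>
        intro k
        simp only [legsF_cons, app_assoc]
        obtain ⟨l1, t1, e1⟩ := width_one_cases (zrun_width x.1 (bot x.2) (bot_width _))
        obtain ⟨l2, t2, e2⟩ := width_one_cases (zrun_width y.1 (bot y.2) (bot_width _))
        rw [e1, e2]
        exact DPerm.swap _ _ _ _ _
      | trans _ _ ih1 ih2 => exact fun k => (ih1 k).trans (ih2 k)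
    have hd : DPerm c (app (legsF ls') g) := (DPerm.of_perm hperm).trans (hperm2 k1.symm g)
    have hd' : DPerm (RF.cons l c RF.nil) (RF.cons l (app (legsF ls') g) RF.nil) :=
      DPerm.cons l hd DPerm.nil
    have hpos' : ∀ e ∈ ls', 1 ≤ e.1 ∧ 1 ≤ e.2 := fun e he => hpos e (k1.subset he)
    have e1 : (ls'.map Prod.fst).sum = (ls.map Prod.fst).sum := (k1.map _).sum_eq
    have e2 : (ls'.map Prod.snd).sum = (ls.map Prod.snd).sum := (k1.map _).sum_eq
    have e3 : ls'.length = ls.length := k1.length_eq
    have e4 : ls''.length ≤ ls'.length := k2.length_le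
    refine ⟨zrun n (RF.cons l (app (legsF ls') g) RF.nil), app (botsF ls'') g, res,
      ⟨hd'.zrun n, k3, ?_, ?_, ?_, ?_, ?_⟩, (k6 0 ⟨hp, Or.inl rfl⟩).solvesUp hn⟩
    · simp only [zrun_size, RF.size, app_size, botsF_size]
      omega
    · simp only [zrun_size, RF.size, app_size, botsF_size]
      omega
    · simp only [zrun_leaves, RF.leaves, app_leaves, botsF_leaves]
      omega
    · rw [app_valid]
      exact ⟨botsF_valid fun e he => (hpos' e (k2.subset he)).2, hpv.2⟩
    · exact noLeg_app.2 ⟨botsF_noLeg fun e he => (hpos' e (k2.subset he)).2, hng⟩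

/-- an exceptional tree -/
def O1t (l : ℕ) (ch : RF) : Prop :=
  l = 0 ∧ 2 ≤ ch.width ∧ ∃ b, 3 ≤ b ∧ ∀ l' c, RF.Top ch l' c → l' = b ∧ c = RF.nil

theorem size_width_leaves_of_obese {f : RF} {b : ℕ} (hb : 3 ≤ b)
    (h : ∀ l c, RF.Top f l c → l = b ∧ c = RF.nil) : f.size = f.width ∧ f.leaves = b * f.width := by
  induction f with
  | nil => simp [RF.size, RF.leaves, RF.width]
  | cons l c s _ ih =>
    obtain ⟨rfl, rfl⟩ := h l c (RF.Top.here _ _ _)
    obtain ⟨h2, h3⟩ := ih fun l' c' ht => h l' c' (RF.Top.right _ _ ht)
    simp only [RF.size, RF.leaves, RF.width, h2, h3]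
    constructor
    · trivial
    · ring

theorem O1t.size_le {l : ℕ} {ch : RF} (h : O1t l ch) : 1 + ch.size ≤ l + ch.leaves := by
  obtain ⟨rfl, h1, b, hb, h2⟩ := h
  obtain ⟨h3, h4⟩ := size_width_leaves_of_obese hb h2
  rw [h3, h4]
  nlinarith

theorem size_le_leaves_of_O1 {f : RF} (h : ∀ l ch, RF.Top f l ch → O1t l ch) :
    f.size ≤ f.leaves := by
  induction f with
  | nil => simp [RF.size]
  | cons l c s _ ih =>
    have h1 := (h l c (RF.Top.here _ _ _)).size_le
    have h2 := ih fun l' c' ht => h l' c' (RF.Top.right _ _ ht)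
    simp only [RF.size, RF.leaves]
    omega

theorem length_le_sum {E : List (ℕ × ℕ)} (h : ∀ e ∈ E, 1 ≤ e.1) :
    E.length ≤ (E.map Prod.fst).sum := by
  induction E with
  | nil => simp
  | cons e E ih =>
    have h1 := h e List.mem_cons_self
    have h2 := ih fun e he => h e (List.mem_cons_of_mem _ he)
    simp only [List.length_cons, List.map_cons, List.sum_cons]
    omega

include hLab hTStar hTStarL hTC hTCup hTCupLeg hSLegs hSZero hHub hEP in
theorem mainRec : MainRec := by
  intro p f E R hR hv hn hE hl hs
  induction hN : f.size using Nat.strong_induction_on generalizing f E R with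
  | _ N IH =>
  subst hN
  have hZero : ZeroClaim := zeroClaim hLab hTStar hTStarL hTCup hTCupLeg hSLegs hSZero
  have hRp : R.card ≤ p := by
    have := Finset.card_le_card hR
    simpa using this
  rcases Nat.eq_zero_or_pos f.width with h0 | h0
  · have := width_zero h0
    subst this
    exact good_nil hEP hR hE (by simpa [RF.leaves] using hl)
  -- choose the tree
  have hpick : ∃ l ch, RF.Top f l ch ∧ (O1t l ch → ∀ l' ch', RF.Top f l' ch' → O1t l' ch') := by
    by_cases h1 : ∀ l' ch', RF.Top f l' ch' → O1t l' ch'
    · cases f with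
      | nil => simp [RF.width] at h0
      | cons l ch s => exact ⟨l, ch, RF.Top.here _ _ _, fun _ => h1⟩
    · push Not at h1
      obtain ⟨l, ch, h2, h3⟩ := h1
      exact ⟨l, ch, h2, fun h => absurd h h3⟩
  obtain ⟨l, ch, htop, hO⟩ := hpick
  obtain ⟨sib, hp, e1, e2, e3, e4, e5⟩ := pick_child htop
  obtain ⟨hv1, hv2, hv3⟩ := e4 hv
  obtain ⟨hn1, hn2⟩ := e5 hn
  refine good_dperm (DPerm.of_perm hp).symm ?_
  have hp1 : 1 ≤ p := by omega
  have hvt : (RF.cons l ch RF.nil).Valid := ⟨hv1, hv2, trivial⟩
  set s : ℕ := p + 1 - (f.size + E.length) with hsdef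
  have hs' : f.size + E.length + s = p + 1 := by omega
  have hsR : p + 1 ≤ s + R.card := by omega
  -- the cluster step
  have hstep : ∀ d, Clu p s R d (RF.cons l ch RF.nil) →
      (∀ r : RF, ∀ res : Finset ℕ, res ⊆ R → res.card + r.leaves ≤ l + ch.leaves →
        res.card + r.size ≤ 1 + ch.size + d → r.size < 1 + ch.size → r.Valid → NoLeg r →
        (∃ t' , Solves p s 0 t' r res.val) → Good p (app r sib) E (R \ res)) → True := fun _ _ _ => trivial
  clear hstep
  have hclu : Clu p s R 0 (RF.cons l ch RF.nil) → Good p (RF.cons l ch sib) E R := by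
    rintro ⟨t', r, res, hNums, hsol⟩
    have h1 := hNums.size
    have h2 := hNums.lt
    have h3 := hNums.leaves
    simp only [RF.size, RF.leaves] at h1 h2 h3
    have hcard : (R \ res).card = R.card - res.card := Finset.card_sdiff_of_subset hNums.sub
    have h4 : Good p (app r sib) E (R \ res) := by
      refine IH (app r sib).size (by rw [app_size]; omega) (app r sib) E (R \ res)
        (Finset.sdiff_subset.trans hR) ((app_valid _ _).2 ⟨hNums.valid, hv3⟩)
        (noLeg_app.2 ⟨hNums.noleg, hn2⟩) hE ?_ ?_ rfl
      · rw [app_leaves, hcard]; omega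
      · rw [app_size, hcard]; omega
    have h5 := good_cluster (t := RF.cons l ch RF.nil) hp1 rfl hR hNums hsol
      (by simp only [RF.size]; omega) (by simp only [RF.leaves]; omega) h4
    exact h5
  rcases Nat.eq_zero_or_pos l with hl0 | hl0
  · subst hl0
    have hcw : 1 ≤ ch.width := by
      by_contra h
      have h1 : ch = RF.nil := width_zero (by omega)
      have := hv1 h1
      omega
    rcases Nat.lt_or_ge ch.width 2 with hw | hw
    · exact hclu (hZero p s R ch hR hsR hvt (by omega) (hn1 rfl) (by simp only [RF.leaves]; omega)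
        (by simp only [RF.size]; omega))
    · rcases hHub p s 0 R ch hR hsR hvt hw (by simp only [RF.leaves]; omega)
        (by simp only [RF.size]; omega) with h1 | h1
      · obtain ⟨t', r, res, hNums, hsol⟩ := h1
        exact hclu ⟨t', r, res, hNums, hsol 0 hp1⟩
      · obtain ⟨⟨t', r, res, hNums, hsol, hrl⟩, hnlc, b, hb, hall⟩ := h1
        have hallO := hO ⟨rfl, hw, b, hb, hall⟩
        have hsibO : ∀ l' ch', RF.Top sib l' ch' → O1t l' ch' := fun l' ch' ht =>
          hallO l' ch' (hp.symm.top (RF.Top.right _ _ ht))
        have h1 := hNums.size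
        have h2 := hNums.lt
        have h3 := hNums.leaves
        simp only [RF.size, RF.leaves] at h1 h2 h3
        have hcard : (R \ res).card = R.card - res.card := Finset.card_sdiff_of_subset hNums.sub
        have h6 := size_le_leaves_of_O1 hsibO
        have h7 := length_le_sum (E := E) (fun e he => (hE e he).1)
        have h4 : Good p (app r sib) E (R \ res) := by
          refine IH (app r sib).size (by rw [app_size]; omega) (app r sib) E (R \ res)
            (Finset.sdiff_subset.trans hR) ((app_valid _ _).2 ⟨hNums.valid, hv3⟩)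
            (noLeg_app.2 ⟨hNums.noleg, hn2⟩) hE ?_ ?_ rfl
          · rw [app_leaves, hcard]; omega
          · rw [app_size, hcard]; omega
        have h5 := good_cluster (t := RF.cons 0 ch RF.nil) hp1 rfl hR hNums (hsol 0 hp1)
          (by simp only [RF.size]; omega) (by simp only [RF.leaves]; omega) h4
        exact h5
  · by_cases hnlc : NoLeg ch
    · refine good_explicit hp1 (IH (app ch sib).size (by rw [app_size]; omega) (app ch sib)
        ((l, p * (1 + ch.width)) :: E) R hR ((app_valid _ _).2 ⟨hv2, hv3⟩)
        (noLeg_app.2 ⟨hnlc, hn2⟩) ?_ ?_ ?_ rfl)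
      · intro e he
        rcases List.mem_cons.1 he with rfl | he
        · refine ⟨hl0, ?_⟩
          show p ≤ p * (1 + ch.width)
          exact Nat.le_mul_of_pos_right p (by omega)
        · exact hE e he
      · simp only [app_leaves, List.map_cons, List.sum_cons]; omega
      · simp only [app_size, List.length_cons]; omega
    · rcases Nat.lt_or_ge ch.width 2 with hw | hw
      · -- vertex of F-degree two with a leg
        have h1 : ∃ t, RF.Top ch 0 t ∧ Legc t := by
          unfold NoLeg at hnlc
          push Not at hnlc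
          exact hnlc
        obtain ⟨t, ht, hleg⟩ := h1
        have hw1 : ch.width = 1 := by
          have : ch ≠ RF.nil := by
            rintro rfl
            cases ht
          have := RF.width_pos this
          omega
        obtain ⟨a, c, rfl⟩ := width_one_cases hw1
        have h2 : a = 0 ∧ c = t := by
          cases ht with
          | here => exact ⟨rfl, rfl⟩
          | right _ _ h => cases h
        obtain ⟨rfl, rfl⟩ := h2
        obtain ⟨n, b, rfl⟩ := legc_iff.1 hleg
        have hb : 1 ≤ b := by
          have h1 := hv2.2.1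
          rw [zrun_valid _ _ (le_of_eq (bot_width _).symm), bot_valid] at h1
          exact h1
        simp only [RF.size, zrun_size, bot_size] at e2
        simp only [RF.leaves, zrun_leaves, bot_leaves] at e3
        obtain ⟨M, hM, hM1, hM2, -⟩ := exists_max_label hR (by omega)
        refine hclu ⟨_, bot b, {M}, ⟨DPerm.refl _, by simpa using hM, ?_, ?_, ?_,
          (bot_valid b).2 hb, noLeg_cons.2 ⟨fun h => by omega, noLeg_nil⟩⟩,
          hTC p s l (n + 1) M (bot b) hp1 (by omega) hl0 (by omega) rfl⟩
        · simp only [Finset.card_singleton, RF.size, zrun_size, bot_size]; omega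
        · simp only [RF.size, zrun_size, bot_size]; omega
        · simp only [Finset.card_singleton, RF.leaves, zrun_leaves, bot_leaves]; omega
      · rcases hHub p s l R ch hR hsR hvt hw (by simp only [RF.leaves]; omega)
          (by simp only [RF.size]; omega) with h1 | h1
        · obtain ⟨t', r, res, hNums, hsol⟩ := h1
          exact hclu ⟨t', r, res, hNums, hsol 0 hp1⟩
        · exact absurd h1.2.1 hnlc

end

end Irr87
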