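import Pool.Agent.Helper87.Irr.Rec

namespace Irr87

open Irr37

/-! ### from `Good` to `Solved` -/

theorem labels_card (F : LF) : Multiset.card F.labels = F.shape.leaves := by
  induction F with
  | nil => rfl
  | cons A a b iha ihb => simp only [LF.labels, LF.shape, RF.leaves, Multiset.card_add, iha, ihb]

theorem solved_star {p : ℕ} (hp : 2 ≤ p) : Solved p p RF.nil := by
  refine ⟨(Finset.Icc 1 p).val, LF.nil, 0, 0, by simp, rfl, by simp [LF.labels], Sol.nil, by simp, ?_⟩
  intro w hw
  have hw' : w = (Finset.Icc 1 p).val.sum + 0 := by simpa using hw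
  rw [hw', add_zero, ← sum_id_val]
  have h1 : ({1, p} : Finset ℕ) ⊆ Finset.Icc 1 p := by
    intro a ha
    simp only [Finset.mem_insert, Finset.mem_singleton] at ha
    rw [Finset.mem_Icc]
    omega
  have h2 := Finset.sum_le_sum_of_subset (f := id) h1
  rw [Finset.sum_pair (by omega)] at h2
  simp only [id] at h2 ⊢
  omega

/-- the root is a bottom and explicit -/
theorem solved_of_good_root {p b : ℕ} {f : RF} (hw : f.width = 1) (hl : b + f.leaves = p)
    (h : Good p f [(b, p)] (Finset.Icc 1 p)) : Solved p b f := by
  obtain ⟨F, W, As, h1, h2, h3, h4, h5, h6⟩ := good_iff.1 h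
  cases As with
  | nil => simp at h3
  | cons A As =>
    cases As with
    | cons _ _ => simp at h3
    | nil =>
      have h3' : Multiset.card A = b := by simpa using h3
      rw [zipw_cons] at h5 h6
      have hz : zipw [] [] = 0 := rfl
      rw [hz] at h5 h6
      have e : W + (A.sum + p) ::ₘ 0 = (A.sum + p * f.width) ::ₘ W := by
        rw [hw, Nat.mul_one, Multiset.add_cons, add_zero]
      refine ⟨A, F, p * f.width, W, h3', h1, ?_, h2, ?_, ?_⟩
      · have h7 : F.labels + A ≤ (Finset.Icc 1 p).val := by simpa using h4
        rw [add_comm]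
        refine Multiset.eq_of_le_of_card_le h7 ?_
        rw [Multiset.card_add, labels_card, h1, h3']
        have : Multiset.card (Finset.Icc 1 p).val = p := by simp
        omega
      · rw [← e]; exact h5
      · rw [← e]; exact h6

/-- the first cluster is solved last -/
theorem solved_of_usolves {p l : ℕ} {f r : RF} {res : Finset ℕ} (hp : 1 ≤ p)
    (hres : res ⊆ Finset.Icc 1 p) (hsz : f.size ≤ p) (hl : l + f.leaves = p)
    (hlr : res.card + r.leaves ≤ p) (hu : USolves p l f r res.val)
    (h : Good p r [] (Finset.Icc 1 p \ res)) : Solved p l f := by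
  classical
  obtain ⟨F, W, As, h1, h2, h3, h4, h5, h6⟩ := good_iff.1 h
  have hAs : As = [] := by simpa using h3
  subst hAs
  have hz : zipw [] [] = 0 := rfl
  rw [hz, add_zero] at h5 h6
  have h4' : F.labels ≤ (Finset.Icc 1 p \ res).val := by simpa using h4
  have hWc := (Sol_card h2).1
  rw [h1] at hWc
  have hFc := labels_card F
  rw [h1] at hFc
  have hc : Multiset.card res.val = res.card := rfl
  have hcR : (Finset.Icc 1 p \ res).card = p - res.card := by
    rw [Finset.card_sdiff_of_subset hres]; simp
  have hcle := Finset.card_le_card hres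
  have hcI : (Finset.Icc 1 p).card = p := by simp
  set fill : Multiset ℕ := (Finset.Icc 1 p \ res).val - F.labels with hfill
  have hf1 : fill + F.labels = (Finset.Icc 1 p \ res).val := tsub_add_cancel_of_le h4'
  have hfc : Multiset.card fill = p - res.card - r.leaves := by
    rw [hfill, Multiset.card_sub h4', hFc]
    have : Multiset.card (Finset.Icc 1 p \ res).val = (Finset.Icc 1 p \ res).card := rfl
    omega
  have hf4 : fill ≤ (Finset.Icc 1 p \ res).val := by
    rw [← hf1]; exact Multiset.le_add_right _ _
  have hRR : res.val + (Finset.Icc 1 p \ res).val = (Finset.Icc 1 p).val := by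
    rw [Finset.sdiff_val]
    exact add_tsub_cancel_of_le (Finset.val_le_iff.2 hres)
  set V : Finset ℕ := W.toFinset with hV
  have hVc : V.card = Multiset.card W := by
    rw [hV, Multiset.toFinset_card_of_nodup h5]
  obtain ⟨A, x, W', L, k1, k2, k3, k4, k5⟩ := hu V fill (by omega) (by omega)
    (by
      intro a ha
      have := Multiset.mem_of_le hf4 ha
      exact Finset.mem_Icc.1 (Finset.sdiff_subset this))
    (by
      refine Multiset.nodup_of_le ?_ (Finset.Icc 1 p).nodup
      rw [← hRR]
      exact add_le_add_right hf4 _)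
  obtain ⟨G, g1, g2, g3⟩ := k2.complete hp F W h1 h2
  have e : (A.sum + x) ::ₘ (W' + W) = (A.sum + x) ::ₘ W' + W := by
    rw [Multiset.cons_add]
  refine ⟨A, G, x, W' + W, k1, g1, ?_, g3, ?_, ?_⟩
  · rw [g2]
    have e1 : A + (L + F.labels) = res.val + (fill + F.labels) := by
      rw [← add_assoc, k3, add_assoc]
    rw [e1, hf1, hRR]
  · rw [e]
    refine Multiset.nodup_add.2 ⟨k4, h5, ?_⟩
    rw [Multiset.disjoint_left]
    intro w hw hw'
    exact (k5 w hw).2 (Multiset.mem_toFinset.2 hw')
  · rw [e]
    intro w hw
    rcases Multiset.mem_add.1 hw with hw | hw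
    · exact (k5 w hw).1
    · exact h6 w hw

theorem solved_dperm {p l : ℕ} {f f' : RF} (hd : DPerm f f') (h : Solved p l f) :
    Solved p l f' := by
  obtain ⟨A, F, x, W, h1, h2, h3, h4, h5, h6⟩ := h
  obtain ⟨F', k1, k2, k3⟩ := Sol_dperm hd F _ W h2 h4
  exact ⟨A, F', x, W, h1, k1, by rw [k2]; exact h3, k3, h5, h6⟩

/-! ### no zeros -/

/-- no zeros in the whole tree -/
def NZ (l : ℕ) (f : RF) : Prop := NoZero f ∧ ¬ (l = 0 ∧ f.width = 2)

theorem noZero_nil : NoZero RF.nil := by
  intro c h
  cases h

theorem noZero_cons {l : ℕ} {c s : RF} :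
    NoZero (RF.cons l c s) ↔ (l = 0 → 2 ≤ c.width) ∧ NoZero c ∧ NoZero s := by
  constructor
  · intro h
    refine ⟨?_, fun d hd => h d (RF.Occ.down _ _ hd), fun d hd => h d (RF.Occ.right _ _ hd)⟩
    rintro rfl
    exact h c (RF.Occ.here _ _ _)
  · rintro ⟨h1, h2, h3⟩ d hd
    cases hd with
    | here => exact h1 rfl
    | down _ _ hd => exact h2 d hd
    | right _ _ hd => exact h3 d hd

theorem noZero_perm {f g : RF} (h : RF.Perm f g) : NoZero f → NoZero g := by
  intro hf c hc
  exact hf c (h.symm.occ hc)

theorem NZ.eqv {l l' : ℕ} {f f' : RF} (h : Eqv l f l' f') : RValid l f → NZ l f → NZ l' f' := by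
  induction h with
  | perm l h => exact fun _ hz => ⟨noZero_perm h hz.1, by rw [← h.width_eq]; exact hz.2⟩
  | reroot l l' c s =>
    intro hv hz
    obtain ⟨h1, h2⟩ := hz
    obtain ⟨h3, h4, h5⟩ := noZero_cons.1 h1
    have h6 := hv.2
    simp only [RF.width] at h2 h6
    refine ⟨noZero_cons.2 ⟨?_, h5, h4⟩, ?_⟩
    · intro hl
      omega
    · rintro ⟨h7, h8⟩
      simp only [RF.width] at h8
      have := h3 h7
      omega
  | trans h1 _ ih1 ih2 => exact fun hv hz => ih2 (h1.rvalid hv) (ih1 hv hz)

theorem noLeg_of_noZero {f : RF} (h : NoZero f) : NoLeg f := by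
  intro c ht hl
  have h1 := h c ht.occ
  rw [hl.width] at h1
  omega

theorem noZero_app {f g : RF} : NoZero (app f g) ↔ NoZero f ∧ NoZero g := by
  induction f with
  | nil => simp [noZero_nil]
  | cons l c s _ ih =>
    simp only [app]
    rw [noZero_cons, noZero_cons, ih]
    tauto

/-- removing the run above a tree that is not a leg -/
theorem noLeg_of_zrun {n : ℕ} {y g : RF} (hn : 1 ≤ n) (hy : y.width = 1)
    (h : NoLeg (app (zrun n y) g)) : NoLeg (app y g) := by
  obtain ⟨h1, h2⟩ := noLeg_app.1 h
  refine noLeg_app.2 ⟨?_, h2⟩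
  obtain ⟨l, c, rfl⟩ := width_one_cases hy
  refine noLeg_cons.2 ⟨?_, noLeg_nil⟩
  rintro rfl hl
  obtain ⟨m, b, rfl⟩ := legc_iff.1 hl
  obtain ⟨k, rfl⟩ : ∃ k, n = k + 1 := ⟨n - 1, by omega⟩
  refine h1 (zrun k (RF.cons 0 (zrun m (bot b)) RF.nil)) (RF.Top.here _ _ _) ?_
  clear * -
  induction k with
  | zero => exact Legc.zero (legc_zrun_bot m b)
  | succ k ih => exact Legc.zero ih

section
variable (hMain : MainRec) (hLabStart : LabStart) (hTStar : TStar) (hUHubRun : UHubRun)
  (hUCRun : UCRun) (hUCLegs : UCLegs) (hUThin : UThin) (hUTriple : UTriple) (hBroom : Broom)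
  (hSLegs : SLegs) (hSZeroRoot : SZeroRoot) (hSTight : STight) (hSBottom : SBottom)

include hMain in
theorem good_rest {p : ℕ} {r : RF} {res : Finset ℕ} (hres : res ⊆ Finset.Icc 1 p) (hv : r.Valid)
    (hn : NoLeg r) (hl : res.card + r.leaves ≤ p) (hs : res.card + r.size ≤ p ∨ r.size ≤ r.leaves) :
    Good p r [] (Finset.Icc 1 p \ res) := by
  have hcR : (Finset.Icc 1 p \ res).card = p - res.card := by
    rw [Finset.card_sdiff_of_subset hres]; simp
  refine hMain p r [] _ Finset.sdiff_subset hv hn (by intro e he; cases he) ?_ ?_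
  · rw [hcR]; simp; omega
  · rw [hcR]; simp; omega

include hMain in
theorem solved_start {p l : ℕ} {f r : RF} {res : Finset ℕ} (hp : 1 ≤ p)
    (hres : res ⊆ Finset.Icc 1 p) (hsz : f.size ≤ p) (hl : l + f.leaves = p)
    (hlr : res.card + r.leaves ≤ p) (hu : USolves p l f r res.val) (hv : r.Valid) (hn : NoLeg r)
    (hs : res.card + r.size ≤ p ∨ r.size ≤ r.leaves) : Solved p l f :=
  solved_of_usolves hp hres hsz hl hlr hu (good_rest hMain hres hv hn hlr hs)

include hMain hLabStart hTStar hUHubRun hUCRun hUCLegs hBroom hSLegs in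
/-- tight start at a vertex next to a zero -/
theorem start_zero {p l n : ℕ} {y g : RF} (hp : 3 ≤ p) (hv : RValid l (app (zrun n y) g))
    (hl : l + (app (zrun n y) g).leaves = p) (hsz : (app (zrun n y) g).size = p) (hn : 1 ≤ n)
    (hy : y.width = 1) (hg : 1 ≤ g.width) (hlg : 1 ≤ l ∨ 2 ≤ g.width) :
    Solved p l (app (zrun n y) g) := by
  have hwid : (app (zrun n y) g).width = 1 + g.width := by
    rw [app_width, zrun_width n y hy]
  obtain ⟨ls, g', hperm, hng, hpos⟩ := hSLegs _ hv.1
  have hpw := hperm.width_eq
  have hps := hperm.size_eq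
  have hpl := hperm.leaves_eq
  have hpv := hperm.valid hv.1
  rw [hwid, app_width, legsF_width] at hpw
  rw [hsz, app_size, legsF_size] at hps
  rw [app_leaves (legsF ls), legsF_leaves] at hpl
  rw [app_valid] at hpv
  have hpin : {p} ⊆ Finset.Icc 1 p := by
    intro a ha
    rw [Finset.mem_singleton] at ha
    rw [Finset.mem_Icc]
    omega
  have hszz := hsz
  have hll := hl
  rw [app_size, zrun_size] at hszz
  rw [app_leaves, zrun_leaves] at hll
  have hvv := hv.1
  rw [app_valid, zrun_valid n y (by omega)] at hvv
  by_cases hls : ls = []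
  · -- no legs
    subst hls
    have hNL : NoLeg (app (zrun n y) g) :=
      (DPerm.of_perm hperm).symm.noLeg (by simpa using hng)
    have hNL' := noLeg_of_zrun hn hy hNL
    rcases Nat.lt_or_ge g.width 2 with hgw | hgw
    · have h1 := hUCRun p l n y g hn hy (by omega) (by omega)
      refine solved_start hMain (res := {p}) (by omega) hpin (by omega) hl ?_ h1
        ((app_valid _ _).2 hvv) hNL' (Or.inl ?_)
      · rw [Finset.card_singleton, app_leaves]; omega
      · rw [Finset.card_singleton, app_size]; omega
    · have h1 := hUHubRun p l n y g hn hy hgw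
      refine solved_start hMain (res := ∅) (by omega) (Finset.empty_subset _) (by omega) hl ?_ h1
        ((app_valid _ _).2 hvv) hNL' (Or.inl ?_)
      · rw [Finset.card_empty, app_leaves]; omega
      · rw [Finset.card_empty, app_size]; omega
  · rcases Nat.lt_or_ge g.width 2 with hgw | hgw
    · -- F-degree two
      have hl1 : 1 ≤ l := by omega
      refine solved_dperm (DPerm.of_perm hperm).symm ?_
      have hlen : 1 ≤ ls.length := by
        rcases ls with _ | ⟨a, as⟩
        · exact absurd rfl hls
        · simp
      rcases ls with _ | ⟨⟨r₁, b₁⟩, ls⟩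
      · exact absurd rfl hls
      have hb1 := hpos (r₁, b₁) List.mem_cons_self
      rcases ls with _ | ⟨⟨r₂, b₂⟩, ls⟩
      · -- one leg
        have e1 : app (legsF [(r₁, b₁)]) g' = app (zrun r₁ (bot b₁)) g' := by
          rw [legsF_cons, legsF_nil, app_nil]
        rw [e1]
        simp only [List.length_cons, List.length_nil, List.map_cons, List.map_nil, List.sum_cons,
          List.sum_nil] at hpw hps hpl
        have hb1' : 1 ≤ r₁ ∧ 1 ≤ b₁ := hb1
        have h1 := hUCRun p l r₁ (bot b₁) g' hb1'.1 rfl hl1 (by omega)
        refine solved_start hMain (res := {p}) (by omega) hpin ?_ ?_ ?_ h1 ?_ ?_ (Or.inl ?_)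
        · rw [app_size, zrun_size, bot_size]; omega
        · rw [app_leaves, zrun_leaves, bot_leaves]; omega
        · rw [Finset.card_singleton, app_leaves, bot_leaves]; omega
        · rw [app_valid, bot_valid]; exact ⟨hb1'.2, hpv.2⟩
        · exact noLeg_app.2 ⟨noLeg_cons.2 ⟨fun h => by omega, noLeg_nil⟩, hng⟩
        · rw [Finset.card_singleton, app_size, bot_size]; omega
      · -- two legs
        have hb2 := hpos (r₂, b₂) (List.mem_cons_of_mem _ List.mem_cons_self)
        simp only [List.length_cons] at hpw
        have hls0 : ls = [] := by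
          rcases ls with _ | ⟨a, as⟩
          · rfl
          · simp at hpw; omega
        subst hls0
        have hg0 : g' = RF.nil := width_zero (by simp at hpw; omega)
        subst hg0
        have e1 : app (legsF [(r₁, b₁), (r₂, b₂)]) RF.nil =
            app (zrun r₁ (bot b₁)) (zrun r₂ (bot b₂)) := by
          rw [legsF_cons, legsF_cons, legsF_nil, app_nil, app_nil]
        rw [e1]
        simp only [List.length_cons, List.length_nil, List.map_cons, List.map_nil, List.sum_cons,
          List.sum_nil, RF.size, RF.leaves] at hpw hps hpl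
        have hb1' : 1 ≤ r₁ ∧ 1 ≤ b₁ := hb1
        have hb2' : 1 ≤ r₂ ∧ 1 ≤ b₂ := hb2
        obtain ⟨r, res, k1, k2, k3, k4⟩ := hUCLegs p l r₁ b₁ r₂ b₂ hl1 hb1'.1 hb1'.2 hb2'.1 hb2'.2
          (by omega)
        have hbv1 := (bot_valid b₁).2 hb1'.2
        have hbv2 := (bot_valid b₂).2 hb2'.2
        have hbn1 : NoLeg (bot b₁) := noLeg_cons.2 ⟨fun h => by omega, noLeg_nil⟩
        have hbn2 : NoLeg (bot b₂) := noLeg_cons.2 ⟨fun h => by omega, noLeg_nil⟩
        have hr : r.Valid ∧ NoLeg r ∧ r.size ≤ r.leaves := by
          rcases k3 with rfl | rfl | rfl | rfl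
          · refine ⟨(app_valid _ _).2 ⟨hbv1, hbv2⟩, noLeg_app.2 ⟨hbn1, hbn2⟩, ?_⟩
            simp only [app_size, bot_size, app_leaves, bot_leaves]; omega
          · exact ⟨hbv1, hbn1, by simp only [bot_size, bot_leaves]; omega⟩
          · exact ⟨hbv2, hbn2, by simp only [bot_size, bot_leaves]; omega⟩
          · exact ⟨trivial, noLeg_nil, by simp [RF.size]⟩
        rcases k4 with k4 | k4
        · refine solved_start hMain (by omega) k1 ?_ ?_ k2 k4 hr.1 hr.2.1 (Or.inr hr.2.2)
          · rw [app_size, zrun_size, zrun_size, bot_size, bot_size]; omega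
          · rw [app_leaves, zrun_leaves, zrun_leaves, bot_leaves, bot_leaves]; omega
        · have h5 : Solved p l (app (zrun r₂ (bot b₂)) (zrun r₁ (bot b₁))) := by
            refine solved_start hMain (by omega) k1 ?_ ?_ k2 k4 hr.1 hr.2.1 (Or.inr hr.2.2)
            · rw [app_size, zrun_size, zrun_size, bot_size, bot_size]; omega
            · rw [app_leaves, zrun_leaves, zrun_leaves, bot_leaves, bot_leaves]; omega
          refine solved_dperm ?_ h5
          obtain ⟨l1, t1, e1⟩ := width_one_cases (zrun_width r₁ (bot b₁) (bot_width _))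
          obtain ⟨l2, t2, e2⟩ := width_one_cases (zrun_width r₂ (bot b₂) (bot_width _))
          rw [e1, e2]
          exact DPerm.swap _ _ _ _ _
    · -- hub with legs
      have hsit : StarSit p 0 (Finset.Icc 1 p) false 0 l ls g' := by
        refine ⟨fun _ => rfl, hpos, Or.inl hls, ?_, ?_, ?_⟩
        · simp; omega
        · simp; omega
        · omega
      obtain ⟨ls', ls'', res, k1, k2, k3, k4, k5, k6, k7⟩ := hTStar p 0 (Finset.Icc 1 p) false 0 l ls
        g' (hLabStart p hp) (Finset.Subset.refl _) hsit
      have h1 := (k7 0 ⟨by omega, Or.inl rfl⟩).usolves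
      have hperm2 : ∀ {a b : List (ℕ × ℕ)}, a.Perm b →
          ∀ k, DPerm (app (legsF a) k) (app (legsF b) k) := by
        intro a b hab
        induction hab with
        | nil => exact fun k => DPerm.refl _
        | cons x _ ih =>
          intro k
          rw [legsF_cons, legsF_cons, app_assoc, app_assoc]
          exact DPerm.app (DPerm.refl _) (ih k)
        | swap x y a =>
          intro k
          simp only [legsF_cons, app_assoc]
          obtain ⟨l1, t1, e1⟩ := width_one_cases (zrun_width x.1 (bot x.2) (bot_width _))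
          obtain ⟨l2, t2, e2⟩ := width_one_cases (zrun_width y.1 (bot y.2) (bot_width _))
          rw [e1, e2]
          exact DPerm.swap _ _ _ _ _
        | trans _ _ ih1 ih2 => exact fun k => (ih1 k).trans (ih2 k)
      have hd : DPerm (app (zrun n y) g) (app (legsF ls') g') :=
        (DPerm.of_perm hperm).trans (hperm2 k1.symm g')
      refine solved_dperm hd.symm ?_
      have hpos' : ∀ e ∈ ls', 1 ≤ e.1 ∧ 1 ≤ e.2 := fun e he => hpos e (k1.subset he)
      have e1 : (ls'.map Prod.fst).sum = (ls.map Prod.fst).sum := (k1.map _).sum_eq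
      have e2 : (ls'.map Prod.snd).sum = (ls.map Prod.snd).sum := (k1.map _).sum_eq
      have e3 : ls'.length = ls.length := k1.length_eq
      have e4 : ls''.length ≤ ls'.length := k2.length_le
      have hposs : ∀ e ∈ ls'', 1 ≤ e.2 := fun e he => (hpos' e (k2.subset he)).2
      refine solved_start hMain (by omega) k3 ?_ ?_ ?_ h1 ?_ ?_ ?_
      · rw [app_size, legsF_size]; omega
      · rw [app_leaves, legsF_leaves]; omega
      · rw [app_leaves, botsF_leaves]; omega
      · rw [app_valid]
        exact ⟨botsF_valid hposs, hpv.2⟩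
      · exact noLeg_app.2 ⟨botsF_noLeg hposs, hng⟩
      · by_cases hg0 : g' = RF.nil
        · right
          subst hg0
          rw [app_nil]
          have : ∀ {q : List (ℕ × ℕ)}, (∀ e ∈ q, 1 ≤ e.2) → (botsF q).size ≤ (botsF q).leaves := by
            intro q hq
            induction q with
            | nil => simp [botsF, RF.size]
            | cons e q ih =>
              have h1 := hq e List.mem_cons_self
              have h2 := ih fun e he => hq e (List.mem_cons_of_mem _ he)
              simp only [botsF, RF.size, RF.leaves]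
              omega
          exact this hposs
        · left
          have := k6 hg0
          rw [app_size, botsF_size]
          omega

include hMain hLabStart hTStar hUHubRun hUCRun hUCLegs hUThin hUTriple hBroom hSLegs hSZeroRoot
  hSTight hSBottom in
theorem lower : Lower := by
  intro p l ch hp hv hl hsz
  by_cases hch : ch = RF.nil
  · subst hch
    simp only [RF.leaves, add_zero] at hl
    subst hl
    exact solved_star (by omega)
  rcases Nat.lt_or_ge ch.size p with hnt | ht
  · -- not tight
    obtain ⟨b, m, c, hb, hE⟩ := hSBottom l ch hv hch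
    refine (hE.solved_iff).2 ?_
    have h1 := hE.rvalid hv
    have h2 := hE.size_eq
    have h3 := hE.leaves_eq
    by_cases hNL : NoLeg (RF.cons m c RF.nil)
    · refine solved_of_good_root rfl (by omega) ?_
      refine hMain p (RF.cons m c RF.nil) [(b, p)] _ (Finset.Subset.refl _) h1.1 hNL ?_ ?_ ?_
      · intro e he
        rw [List.mem_singleton] at he
        subst he
        exact ⟨hb, le_refl _⟩
      · simp; omega
      · simp; omega
    · have h4 : m = 0 ∧ Legc c := by
        by_contra h
        apply hNL
        refine noLeg_cons.2 ⟨fun hm hl' => h ⟨hm, hl'⟩, noLeg_nil⟩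
      obtain ⟨rfl, hleg⟩ := h4
      obtain ⟨n, b', rfl⟩ := legc_iff.1 hleg
      have hb' : 1 ≤ b' := by
        have h5 := h1.1.2.1
        rw [zrun_valid _ _ (le_of_eq (bot_width _).symm), bot_valid] at h5
        exact h5
      simp only [RF.size, zrun_size, bot_size] at h2
      simp only [RF.leaves, zrun_leaves, bot_leaves] at h3
      exact hBroom p b b' (n + 1) hp hb hb' (by omega) (by omega) (by omega)
  · have hsz' : ch.size = p := by omega
    by_cases hz : NZ l ch
    · rcases hSTight l ch hv hz.1 hz.2 (by omega) with h1 | h1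
      · obtain ⟨l', g, hE, hg⟩ := h1
        refine (hE.solved_iff).2 ?_
        have h2 := hE.rvalid hv
        have h3 := hE.size_eq
        have h4 := hE.leaves_eq
        have h5 := NZ.eqv hE hv hz
        obtain ⟨h6, h7, h8⟩ := noZero_cons.1 h5.1
        simp only [RF.size] at h3
        simp only [RF.leaves] at h4
        refine solved_start hMain (res := {p}) (by omega) ?_ ?_ ?_ ?_ (hUThin p l' g hg) h2.1.2.2
          (noLeg_of_noZero h8) (Or.inl ?_)
        · intro a ha
          rw [Finset.mem_singleton] at ha
          rw [Finset.mem_Icc]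
          omega
        · simp only [RF.size]; omega
        · simp only [RF.leaves]; omega
        · rw [Finset.card_singleton]; omega
        · rw [Finset.card_singleton]; omega
      · obtain ⟨l', lw, y, yw, g, hE, hy, hg, hyw, hlw⟩ := h1
        refine (hE.solved_iff).2 ?_
        have h2 := hE.rvalid hv
        have h3 := hE.size_eq
        have h4 := hE.leaves_eq
        have h5 := NZ.eqv hE hv hz
        obtain ⟨h6, h7, h8⟩ := noZero_cons.1 h5.1
        obtain ⟨h9, h10, h11⟩ := noZero_cons.1 h8
        obtain ⟨hv1, hv2, hv3, hv4, hv5⟩ := h2.1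
        simp only [RF.size] at h3
        simp only [RF.leaves] at h4
        have hU := hUTriple p l' lw y yw g (by omega) hy hg
        have hvr : (app y (app yw g)).Valid := by
          rw [app_valid, app_valid]
          exact ⟨hv2, hv4, hv5⟩
        have hnr : NoLeg (app y (app yw g)) :=
          noLeg_app.2 ⟨noLeg_of_noZero h7, noLeg_app.2 ⟨noLeg_of_noZero h10, noLeg_of_noZero h11⟩⟩
        have hyw1 : 1 ≤ yw.width := RF.width_pos hyw
        rcases Nat.lt_or_ge yw.width 2 with hw | hw
        · have hlw1 : 1 ≤ lw := by omega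
          have hU2 := hU.2 (by omega) hlw1
          have hne : (1 : ℕ) ≠ p := by omega
          have hU2' : USolves p l' (RF.cons 1 y (RF.cons lw yw g)) (app y (app yw g))
              ({1, p} : Finset ℕ).val := by
            have e : ({1, p} : Finset ℕ).val = ({1, p} : Multiset ℕ) := by
              rw [Finset.insert_val_of_notMem (by simpa using hne)]
              rfl
            rw [e]
            exact hU2
          refine solved_start hMain (by omega) ?_ ?_ ?_ ?_ hU2' hvr hnr (Or.inl ?_)
          · intro a ha
            simp only [Finset.mem_insert, Finset.mem_singleton] at ha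
            rw [Finset.mem_Icc]
            omega
          · simp only [RF.size]; omega
          · simp only [RF.leaves]; omega
          · rw [Finset.card_pair hne, app_leaves, app_leaves]; omega
          · rw [Finset.card_pair hne, app_size, app_size]; omega
        · have hU1 := hU.1 hw
          refine solved_start hMain (res := {1}) (by omega) ?_ ?_ ?_ ?_ hU1 hvr hnr (Or.inl ?_)
          · intro a ha
            simp only [Finset.mem_singleton] at ha
            rw [Finset.mem_Icc]
            omega
          · simp only [RF.size]; omega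
          · simp only [RF.leaves]; omega
          · rw [Finset.card_singleton, app_leaves, app_leaves]; omega
          · rw [Finset.card_singleton, app_size, app_size]; omega
    · have hz' : ¬ NoZero ch ∨ (l = 0 ∧ ch.width = 2) := by
        unfold NZ at hz
        tauto
      rcases hSZeroRoot l ch hv hch hz' with h1 | h1
      · obtain ⟨b, r, b', hb, hb', hr, hE⟩ := h1
        refine (hE.solved_iff).2 ?_
        have h3 := hE.size_eq
        have h4 := hE.leaves_eq
        rw [zrun_size, bot_size] at h3
        rw [zrun_leaves, bot_leaves] at h4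
        exact hBroom p b b' r hp hb hb' (by omega) hr (by omega)
      · obtain ⟨l', n, y, g, hE, hn, hy, hg, hlg⟩ := h1
        refine (hE.solved_iff).2 ?_
        have h2 := hE.rvalid hv
        have h3 := hE.size_eq
        have h4 := hE.leaves_eq
        exact start_zero hMain hLabStart hTStar hUHubRun hUCRun hUCLegs hBroom hSLegs hp h2
          (by omega) (by omega) hn hy hg hlg

end

end Irr87
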